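import Mathlib

set_option autoImplicit false

namespace Pool.Agent.Results.MP_9ad289_al.OddKG

open MulOpposite

universe u

/-- A positive primitive formula in one free variable `x`. -/
structure PP (R : Type u) where
  k : ℕ
  m : ℕ
  a : Fin m → R
  B : Fin k → Fin m → R

/-- Solutions. -/
def PP.Sat {R : Type u} [Ring R] (φ : PP R) (M : Type u) [AddCommGroup M] [Module Rᵐᵒᵖ M]
    (x : M) : Prop :=
  ∃ y : Fin φ.k → M, ∀ j, op (φ.a j) • x + ∑ i, op (φ.B i j) • y i = 0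

/-- The lattice of pp formulas modulo equivalence. -/
def PPLat (R : Type u) [Ring R] : Type (u + 1) :=
  {F : ∀ M : ModuleCat.{u} Rᵐᵒᵖ, AddSubgroup M //
    ∃ φ : PP R, ∀ (M : ModuleCat.{u} Rᵐᵒᵖ) (x : M), x ∈ F M ↔ φ.Sat M x}

instance (R : Type u) [Ring R] : PartialOrder (PPLat R) := Subtype.partialOrder _

/-- `MdimLT n a b`: the interval `[a,b]` has m-dimension `< n`. -/
def MdimLT {L : Type*} [PartialOrder L] : ℕ → L → L → Prop
  | 0, a, b => a = b
  | n + 1, a, b => ∃ (k : ℕ) (c : ℕ → L), c 0 = a ∧ c k = b ∧ ∀ i < k, c i ≤ c (i + 1) ∧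
      ∀ x, c i ≤ x → x ≤ c (i + 1) → MdimLT n (c i) x ∨ MdimLT n x (c (i + 1))

/-- `DevLT n a b`: the interval `[a,b]` has deviation `< n`. -/
def DevLT {L : Type*} [PartialOrder L] : ℕ → L → L → Prop
  | 0, a, b => a = b
  | n + 1, a, b => ∀ c : ℕ → L, Antitone c → (∀ i, a ≤ c i ∧ c i ≤ b) →
      ∃ N, ∀ i ≥ N, DevLT n (c (i + 1)) (c i)

/-- A ring is serial if `1` is a sum of pairwise orthogonal primitive idempotents `e i` such that
every `e i R` is a uniserial right module and every `R e i` is a uniserial left module. -/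
def IsSerialRing (R : Type u) [Ring R] : Prop :=
  ∃ (n : ℕ) (e : Fin n → R),
    (∀ i, e i * e i = e i ∧ e i ≠ 0 ∧ ∀ f g : R, f * f = f → g * g = g → f * g = 0 → g * f = 0 →
      f + g = e i → f = 0 ∨ g = 0) ∧
    (∀ i j, i ≠ j → e i * e j = 0) ∧
    ∑ i, e i = 1 ∧
    (∀ i, ∀ A B : Submodule Rᵐᵒᵖ R, A ≤ Submodule.span Rᵐᵒᵖ {e i} →
      B ≤ Submodule.span Rᵐᵒᵖ {e i} → A ≤ B ∨ B ≤ A) ∧
    (∀ i, ∀ A B : Submodule R R, A ≤ Submodule.span R {e i} →
      B ≤ Submodule.span R {e i} → A ≤ B ∨ B ≤ A)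

/-- The Gabriel–Rentschler Krull dimension of `R` (deviation of the lattice of right ideals)
equals `n`. -/
def KrullDimEq (R : Type u) [Ring R] (n : ℕ) : Prop :=
  DevLT (n + 1) (⊥ : Submodule Rᵐᵒᵖ R) ⊤ ∧ ¬ DevLT n (⊥ : Submodule Rᵐᵒᵖ R) ⊤

/-- The Krull–Gabriel dimension of `R` (the m-dimension of the lattice of pp formulas in one
variable for right `R`-modules) equals `n`. -/
def KGDimEq (R : Type u) [Ring R] (n : ℕ) : Prop :=
  ∃ a b : PPLat R, IsBot a ∧ IsTop b ∧ MdimLT (n + 1) a b ∧ ¬ MdimLT n a b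

section general

variable {L : Type*} [Lattice L]

theorem mdim_refl (n : ℕ) (a : L) : MdimLT n a a := by
  cases n with
  | zero => rfl
  | succ n => exact ⟨0, fun _ => a, rfl, rfl, fun i hi => absurd hi (Nat.not_lt_zero i)⟩

theorem mdim_le {n : ℕ} {a b : L} (h : MdimLT n a b) : a ≤ b := by
  cases n with
  | zero => exact le_of_eq h
  | succ n =>
    obtain ⟨k, c, h0, hk, hc⟩ := h
    have : ∀ j ≤ k, c 0 ≤ c j := by
      intro j hj
      induction j with
      | zero => exact le_rfl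
      | succ j ih => exact (ih (by omega)).trans (hc j (by omega)).1
    rw [← h0, ← hk]
    exact this k le_rfl

theorem mdim_trans {n : ℕ} {a b c : L} (h1 : MdimLT n a b) (h2 : MdimLT n b c) :
    MdimLT n a c := by
  cases n with
  | zero => exact Eq.trans h1 h2
  | succ n =>
    obtain ⟨k, u, u0, uk, hu⟩ := h1
    obtain ⟨l, v, v0, vl, hv⟩ := h2
    refine ⟨k + l, fun i => if i ≤ k then u i else v (i - k), by simp [u0], ?_, ?_⟩
    · by_cases hl : l = 0
      · subst hl; simp [uk, ← vl, v0]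
      · have : ¬ (k + l ≤ k) := by omega
        simp [this, vl]
    · intro i hi
      by_cases h : i < k
      · have h1 : i ≤ k := by omega
        have h2 : i + 1 ≤ k := by omega
        simp only [h1, h2, if_true]
        exact hu i h
      · by_cases h' : i = k
        · subst h'
          have h2 : ¬ (i + 1 ≤ i) := by omega
          have h3 : i + 1 - i = 0 + 1 := by omega
          simp only [le_refl, h2, if_true, if_false, h3]
          rw [uk, ← v0]
          exact hv 0 (by omega)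
        · have h1 : ¬ (i ≤ k) := by omega
          have h2 : ¬ (i + 1 ≤ k) := by omega
          simp only [h1, h2, if_false]
          have h3 : i + 1 - k = (i - k) + 1 := by omega
          rw [h3]
          exact hv (i - k) (by omega)

variable [IsModularLattice L]

theorem mdim_inf (n : ℕ) : ∀ {a b : L} (c : L), MdimLT n a b → MdimLT n (a ⊓ c) (b ⊓ c) := by
  induction n with
  | zero => intro a b c h; exact congrArg (· ⊓ c) h
  | succ n ih =>
    intro a b c h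
    obtain ⟨k, u, u0, uk, hu⟩ := h
    refine ⟨k, fun i => u i ⊓ c, by simp [u0], by simp [uk], ?_⟩
    intro i hi
    obtain ⟨h1, h2⟩ := hu i hi
    refine ⟨inf_le_inf_right c h1, ?_⟩
    intro x hx1 hx2
    have hxc : x ≤ c := hx2.trans inf_le_right
    have key : (x ⊔ u i) ⊓ c = x := by
      rw [sup_inf_assoc_of_le (u i) hxc]
      exact sup_eq_left.2 hx1
    rcases h2 (x ⊔ u i) le_sup_right (sup_le (hx2.trans inf_le_left) h1) with h3 | h3
    · left
      have := ih c h3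
      rwa [key] at this
    · right
      have := ih c h3
      rwa [key] at this

theorem mdim_sup (n : ℕ) : ∀ {a b : L} (c : L), MdimLT n a b → MdimLT n (a ⊔ c) (b ⊔ c) := by
  induction n with
  | zero => intro a b c h; exact congrArg (· ⊔ c) h
  | succ n ih =>
    intro a b c h
    obtain ⟨k, u, u0, uk, hu⟩ := h
    refine ⟨k, fun i => u i ⊔ c, by simp [u0], by simp [uk], ?_⟩
    intro i hi
    obtain ⟨h1, h2⟩ := hu i hi
    refine ⟨sup_le_sup_right h1 c, ?_⟩
    intro x hx1 hx2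
    have hxc : c ≤ x := le_sup_right.trans hx1
    have key : (x ⊓ u (i + 1)) ⊔ c = x := by
      rw [inf_sup_assoc_of_le (u (i+1)) hxc]
      exact inf_eq_left.2 hx2
    rcases h2 (x ⊓ u (i + 1)) (le_inf (le_sup_left.trans hx1) h1) inf_le_right with h3 | h3
    · left
      have := ih c h3
      rwa [key] at this
    · right
      have := ih c h3
      rwa [key] at this

theorem mdim_sub {n : ℕ} {a b a' b' : L} (h : MdimLT n a b) (h1 : a ≤ a') (h2 : a' ≤ b')
    (h3 : b' ≤ b) : MdimLT n a' b' := by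
  have := mdim_sup n a' (mdim_inf n b' h)
  rwa [inf_eq_left.2 ((h1.trans h2)), inf_eq_right.2 h3, sup_eq_right.2 h1,
    sup_eq_left.2 h2] at this

theorem mdim_succ {n : ℕ} {a b : L} (h : MdimLT n a b) : MdimLT (n + 1) a b := by
  refine ⟨1, fun i => if i = 0 then a else b, by simp, by simp, ?_⟩
  intro i hi
  have hi0 : i = 0 := by omega
  subst hi0
  simp only [if_true, Nat.zero_add, one_ne_zero, if_false]
  exact ⟨mdim_le h, fun x hx1 hx2 => Or.inl (mdim_sub h le_rfl hx1 hx2)⟩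

/-- `A ≤ B` modulo intervals of m-dimension `< n`. -/
def Le (n : ℕ) (A B : L) : Prop := MdimLT n (A ⊓ B) A

theorem Le.of_le {n : ℕ} {A B : L} (h : A ≤ B) : Le n A B := by
  unfold Le
  rw [inf_eq_left.2 h]
  exact mdim_refl n A

theorem Le.trans {n : ℕ} {A B C : L} (h1 : Le n A B) (h2 : Le n B C) : Le n A C := by
  unfold Le at *
  have h3 := mdim_inf n A h2
  have h4 : MdimLT n (B ⊓ C ⊓ A) A := mdim_trans h3 (by rwa [inf_comm] at h1)
  exact mdim_sub h4 (by
    refine le_inf inf_le_right ?_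
    exact inf_le_left.trans inf_le_right) inf_le_left le_rfl

theorem Le.inf {n : ℕ} {A B : L} (h : Le n A B) (C : L) : Le n (A ⊓ C) (B ⊓ C) := by
  unfold Le at *
  have := mdim_inf n C h
  convert this using 1
  apply le_antisymm
  · exact le_inf (le_inf (inf_le_left.trans inf_le_left) (inf_le_right.trans inf_le_left))
      (inf_le_left.trans inf_le_right)
  · exact le_inf (le_inf (inf_le_left.trans inf_le_left) inf_le_right)
      (le_inf (inf_le_left.trans inf_le_right) inf_le_right)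

theorem Le.sup {n : ℕ} {A B : L} (h : Le n A B) (C : L) : Le n (A ⊔ C) (B ⊔ C) := by
  unfold Le at *
  have := mdim_sup n C h
  exact mdim_sub this (le_inf (sup_le_sup_right inf_le_left C)
    (sup_le_sup_right inf_le_right C)) inf_le_left le_rfl

theorem Le.succ {n : ℕ} {A B : L} (h : Le n A B) : Le (n + 1) A B := mdim_succ h

theorem Le.inf_both {n : ℕ} {A B C : L} (h : Le n A B) (h' : Le n A C) : Le n A (B ⊓ C) := by
  have h1 : Le n A (A ⊓ B) := by
    have := h.inf A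
    rw [inf_idem, inf_comm B A] at this
    exact this
  have h2 : Le n (A ⊓ B) (B ⊓ C) := by
    have := h'.inf B
    rwa [inf_comm C B] at this
  exact h1.trans h2

theorem Le.sup_both {n : ℕ} {A B C : L} (h : Le n A C) (h' : Le n B C) : Le n (A ⊔ B) C := by
  have h1 : Le n (A ⊔ B) (C ⊔ B) := h.sup B
  have h2 : Le n (B ⊔ C) (C ⊔ C) := h'.sup C
  rw [sup_idem, sup_comm] at h2
  exact h1.trans h2

/-- criterion for one more step -/
theorem Le.step {n : ℕ} {A B : L}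
    (h : ∀ x, A ⊓ B ≤ x → x ≤ A → Le n x B ∨ Le n A x) : Le (n + 1) A B := by
  refine ⟨1, fun i => if i = 0 then A ⊓ B else A, by simp, by simp, ?_⟩
  intro i hi
  have hi0 : i = 0 := by omega
  subst hi0
  simp only [if_true, Nat.zero_add, one_ne_zero, if_false]
  refine ⟨inf_le_left, fun x hx1 hx2 => ?_⟩
  rcases h x hx1 hx2 with h | h
  · left
    unfold Le at h
    have : x ⊓ B = A ⊓ B := by
      apply le_antisymm
      · exact inf_le_inf_right B hx2
      · exact le_inf hx1 inf_le_right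
    rwa [this] at h
  · right
    unfold Le at h
    rwa [inf_eq_right.2 hx2] at h

end general

section normal

variable {S : Type u} [Ring S]

/-- divisibility condition `d ∣ ∑ vᵢ wᵢ`. -/
def Hold {n : ℕ} (c : (Fin n → S) × S) (M : Type u) [AddCommGroup M] [Module Sᵐᵒᵖ M]
    (v : Fin n → M) : Prop :=
  ∃ z : M, ∑ i, op (c.1 i) • v i = op c.2 • z

def HoldY {n : ℕ} (c : (Fin n → S) × S × S) (M : Type u) [AddCommGroup M] [Module Sᵐᵒᵖ M]
    (v : Fin n → M) (y : M) : Prop :=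
  ∃ z : M, ∑ i, op (c.1 i) • v i + op c.2.1 • y = op c.2.2 • z

theorem exists_max_right (hr : ∀ a b : S, (∃ t, a = b * t) ∨ ∃ t, b = a * t)
    {T : Type u} (f : T → S) (l : List T) (hl : l ≠ []) :
    ∃ c ∈ l, ∀ c' ∈ l, ∃ t, f c' = f c * t := by
  induction l with
  | nil => exact absurd rfl hl
  | cons a l ih =>
    by_cases h : l = []
    · subst h
      exact ⟨a, by simp, fun c' hc' => ⟨1, by simp at hc'; simp [hc']⟩⟩
    · obtain ⟨c, hc, hc'⟩ := ih h
      rcases hr (f a) (f c) with ⟨t, ht⟩ | ⟨t, ht⟩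
      · refine ⟨c, by simp [hc], fun c' h' => ?_⟩
        rcases List.mem_cons.1 h' with rfl | h'
        · exact ⟨t, ht⟩
        · exact hc' c' h'
      · refine ⟨a, by simp, fun c' h' => ?_⟩
        rcases List.mem_cons.1 h' with rfl | h'
        · exact ⟨1, by simp⟩
        · obtain ⟨s, hs⟩ := hc' c' h'
          exact ⟨t * s, by rw [hs, ht, mul_assoc]⟩

theorem elim (hl : ∀ a b : S, (∃ t, a = t * b) ∨ ∃ t, b = t * a)
    (hr : ∀ a b : S, (∃ t, a = b * t) ∨ ∃ t, b = a * t) {n : ℕ} :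
    ∀ (N : ℕ) (L : List ((Fin n → S) × S × S)), L.length = N →
      ∃ L' : List ((Fin n → S) × S), ∀ (M : Type u) [AddCommGroup M] [Module Sᵐᵒᵖ M]
        (v : Fin n → M), (∃ y, ∀ c ∈ L, HoldY c M v y) ↔ ∀ c ∈ L', Hold c M v := by
  intro N
  induction N with
  | zero =>
    intro L hL
    have : L = [] := List.length_eq_zero_iff.1 hL
    subst this
    exact ⟨[], fun M _ _ v => by simp⟩
  | succ N ih =>
    intro L hL
    by_cases h : ∃ c ∈ L, ∃ r, c.2.1 = r * c.2.2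
    · obtain ⟨c, hc, r, hr'⟩ := h
      obtain ⟨s, t, rfl⟩ := List.append_of_mem hc
      obtain ⟨L', hL'⟩ := ih (s ++ t) (by simp at hL ⊢; omega)
      refine ⟨(c.1, c.2.2) :: L', fun M _ _ v => ?_⟩
      have key : ∀ y, HoldY c M v y ↔ Hold (c.1, c.2.2) M v := by
        intro y
        unfold HoldY Hold
        constructor
        · rintro ⟨z, hz⟩
          refine ⟨z - op r • y, ?_⟩
          rw [hr'] at hz
          simp only [op_mul, mul_smul] at hz
          rw [smul_sub, ← hz]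
          abel
        · rintro ⟨z, hz⟩
          refine ⟨z + op r • y, ?_⟩
          rw [hr']
          simp only [op_mul, mul_smul]
          rw [smul_add, ← hz]
      constructor
      · rintro ⟨y, hy⟩ c' hc'
        rcases List.mem_cons.1 hc' with rfl | hc'
        · exact (key y).1 (hy c (by simp))
        · refine (hL' M v).1 ⟨y, fun c'' hc'' => hy c'' ?_⟩ c' hc'
          simp only [List.mem_append, List.mem_cons] at hc'' ⊢
          tauto
      · intro h
        obtain ⟨y, hy⟩ := (hL' M v).2 (fun c' hc' => h c' (List.mem_cons_of_mem _ hc'))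
        refine ⟨y, fun c' hc' => ?_⟩
        simp only [List.mem_append, List.mem_cons] at hc'
        by_cases hcc : c' = c
        · subst hcc
          exact (key y).2 (h _ (by simp))
        · refine hy c' ?_
          simp only [List.mem_append]
          tauto
    · push Not at h
      have hne : L ≠ [] := by
        rintro rfl
        simp at hL
      obtain ⟨c, hc, hmax⟩ := exists_max_right hr (fun c : (Fin n → S) × S × S => c.2.1) L hne
      have hd : ∃ r, c.2.2 = r * c.2.1 := by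
        rcases hl c.2.1 c.2.2 with ⟨t, ht⟩ | ht
        · exact absurd ht (h c hc t)
        · exact ht
      obtain ⟨r, hr'⟩ := hd
      obtain ⟨s, t, rfl⟩ := List.append_of_mem hc
      classical
      let τ : (Fin n → S) × S × S → S := fun c' =>
        if hh : ∃ t, c'.2.1 = c.2.1 * t then hh.choose else 0
      have hτ : ∀ c' ∈ s ++ c :: t, c'.2.1 = c.2.1 * τ c' := by
        intro c' hc'
        have hh := hmax c' hc'
        simp only [τ]
        rw [dif_pos hh]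
        exact hh.choose_spec
      let f : (Fin n → S) × S × S → (Fin n → S) × S × S := fun c' =>
        (fun i => c'.1 i - c.1 i * τ c', r * c'.2.1, c'.2.2)
      obtain ⟨L', hL'⟩ := ih ((s ++ t).map f) (by simp at hL ⊢; omega)
      refine ⟨(c.1, c.2.1) :: L', fun M _ _ v => ?_⟩
      have key : ∀ c' ∈ s ++ c :: t, ∀ y z : M,
          (∑ i, op (c.1 i) • v i + op c.2.1 • y = op c.2.2 • z) →
          (HoldY c' M v y ↔ HoldY (f c') M v z) := by
        intro c' hc' y z hz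
        have e1 : op c'.2.1 • y = op (τ c') • (op c.2.1 • y) := by
          rw [← mul_smul, ← op_mul, ← hτ c' hc']
        have e2 : op c.2.1 • y = op c.2.2 • z - ∑ i, op (c.1 i) • v i := by
          rw [← hz]; abel
        have e3 : op (τ c') • (op c.2.2 • z) = op (r * c'.2.1) • z := by
          rw [hr', ← mul_smul, ← op_mul, mul_assoc, ← hτ c' hc']
        have e4 : ∑ i, op (c'.1 i - c.1 i * τ c') • v i
            = ∑ i, op (c'.1 i) • v i - op (τ c') • ∑ i, op (c.1 i) • v i := by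
          rw [Finset.smul_sum, ← Finset.sum_sub_distrib]
          refine Finset.sum_congr rfl fun i _ => ?_
          rw [op_sub, sub_smul, op_mul, mul_smul]
        have e5 : ∑ i, op (c'.1 i) • v i + op c'.2.1 • y
            = ∑ i, op ((f c').1 i) • v i + op (f c').2.1 • z := by
          simp only [f]
          rw [e4, e1, e2, smul_sub, e3]
          abel
        unfold HoldY
        rw [e5]
      constructor
      · rintro ⟨y, hy⟩
        obtain ⟨z, hz⟩ := hy c (by simp)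
        intro c' hc'
        rcases List.mem_cons.1 hc' with rfl | hc'
        · refine ⟨op r • z - y, ?_⟩
          have : op c.2.2 • z = op c.2.1 • op r • z := by
            rw [hr', op_mul, mul_smul]
          rw [smul_sub, ← this, ← hz]
          simp
        · refine (hL' M v).1 ⟨z, fun c'' hc'' => ?_⟩ c' hc'
          obtain ⟨c₁, hc₁, rfl⟩ := List.mem_map.1 hc''
          have hm : c₁ ∈ s ++ c :: t := by
            simp only [List.mem_append, List.mem_cons] at hc₁ ⊢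
            tauto
          exact (key c₁ hm y z hz).1 (hy c₁ hm)
      · intro h
        obtain ⟨y', hy'⟩ := h _ (List.mem_cons_self)
        obtain ⟨z, hz⟩ := (hL' M v).2 (fun c' hc' => h c' (List.mem_cons_of_mem _ hc'))
        have hc0 : ∑ i, op (c.1 i) • v i + op c.2.1 • (op r • z - y') = op c.2.2 • z := by
          simp only at hy'
          rw [hy', smul_sub, hr', op_mul, mul_smul]
          abel
        refine ⟨op r • z - y', fun c' hc' => ?_⟩
        by_cases hcc : c' = c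
        · subst hcc
          exact ⟨z, hc0⟩
        · refine (key c' hc' _ z hc0).2 (hz _ (List.mem_map.2 ⟨c', ?_, rfl⟩))
          simp only [List.mem_append, List.mem_cons] at hc' ⊢
          tauto

theorem elim_all (hl : ∀ a b : S, (∃ t, a = t * b) ∨ ∃ t, b = t * a)
    (hr : ∀ a b : S, (∃ t, a = b * t) ∨ ∃ t, b = a * t) :
    ∀ (k : ℕ) (L : List ((Fin (k + 1) → S) × S)),
      ∃ L' : List (S × S), ∀ (M : Type u) [AddCommGroup M] [Module Sᵐᵒᵖ M] (x : M),
        (∃ y : Fin k → M, ∀ c ∈ L, Hold c M (Fin.cons x y : Fin (k + 1) → M)) ↔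
          ∀ c ∈ L', ∃ z : M, op c.1 • x = op c.2 • z := by
  intro k
  induction k with
  | zero =>
    intro L
    refine ⟨L.map (fun c => (c.1 0, c.2)), fun M _ _ x => ?_⟩
    constructor
    · rintro ⟨y, hy⟩ c hc
      obtain ⟨c', hc', rfl⟩ := List.mem_map.1 hc
      obtain ⟨z, hz⟩ := hy c' hc'
      exact ⟨z, by simpa using hz⟩
    · intro h
      refine ⟨Fin.elim0, fun c hc => ?_⟩
      obtain ⟨z, hz⟩ := h _ (List.mem_map.2 ⟨c, hc, rfl⟩)
      exact ⟨z, by simpa using hz⟩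
  | succ k ih =>
    intro L
    obtain ⟨L₁, hL₁⟩ := elim hl hr _ (L.map (fun c =>
      ((fun i : Fin (k + 1) => c.1 i.castSucc), c.1 (Fin.last (k + 1)), c.2))) rfl
    obtain ⟨L', hL'⟩ := ih L₁
    refine ⟨L', fun M _ _ x => ?_⟩
    rw [← hL' M x]
    have hh : ∀ (y : Fin k → M) (z : M) (c : (Fin (k + 1 + 1) → S) × S),
        Hold c M (Fin.cons x (Fin.snoc y z : Fin (k + 1) → M) : Fin (k + 1 + 1) → M) ↔
        HoldY ((fun i : Fin (k + 1) => c.1 i.castSucc), c.1 (Fin.last (k + 1)), c.2) M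
          (Fin.cons x y : Fin (k + 1) → M) z := by
      intro y z c
      unfold Hold HoldY
      rw [Fin.cons_snoc_eq_snoc_cons]
      simp only [Fin.sum_univ_castSucc (n := k + 1), Fin.snoc_castSucc, Fin.snoc_last]
    constructor
    · rintro ⟨y, hy⟩
      refine ⟨fun i => y i.castSucc, ?_⟩
      refine (hL₁ M _).1 ⟨y (Fin.last k), fun c hc => ?_⟩
      obtain ⟨c', hc', rfl⟩ := List.mem_map.1 hc
      rw [← hh]
      convert hy c' hc' using 2
      exact Fin.snoc_init_self y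
    · rintro ⟨y, hy⟩
      obtain ⟨z, hz⟩ := (hL₁ M _).2 hy
      refine ⟨Fin.snoc y z, fun c hc => ?_⟩
      rw [hh]
      exact hz _ (List.mem_map.2 ⟨c, hc, rfl⟩)

/-- Normal form: over a ring whose one-sided principal ideals form chains every pp formula is
a finite conjunction of formulas `(r ∣ x) + (x s = 0)`. -/
theorem cnf (hl : ∀ a b : S, (∃ t, a = t * b) ∨ ∃ t, b = t * a)
    (hr : ∀ a b : S, (∃ t, a = b * t) ∨ ∃ t, b = a * t) (φ : PP S) :
    ∃ L : List (S × S), ∀ (M : Type u) [AddCommGroup M] [Module Sᵐᵒᵖ M] (x : M),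
      φ.Sat M x ↔ ∀ c ∈ L, ∃ y : M, op c.2 • (x - op c.1 • y) = 0 := by
  obtain ⟨L', hL'⟩ := elim_all hl hr φ.k
    (List.ofFn (fun j => ((Fin.cons (φ.a j) (fun i => φ.B i j) : Fin (φ.k + 1) → S), (0 : S))))
  classical
  let g : S × S → S × S := fun c =>
    if h : ∃ t, c.2 = t * c.1 then (h.choose, c.1) else (1, 0)
  refine ⟨L'.map g, fun M _ _ x => ?_⟩
  have h1 : φ.Sat M x ↔ ∃ y : Fin φ.k → M, ∀ c ∈ (List.ofFn (fun j =>
      ((Fin.cons (φ.a j) (fun i => φ.B i j) : Fin (φ.k + 1) → S), (0 : S)))),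
      Hold c M (Fin.cons x y : Fin (φ.k + 1) → M) := by
    unfold PP.Sat
    refine exists_congr fun y => ?_
    simp only [List.mem_ofFn, forall_exists_index, forall_apply_eq_imp_iff]
    refine forall_congr' fun j => ?_
    unfold Hold
    simp [Fin.sum_univ_succ]
  rw [h1, hL' M x]
  have h2 : ∀ c : S × S, (∃ z : M, op c.1 • x = op c.2 • z) ↔
      ∃ y : M, op (g c).2 • (x - op (g c).1 • y) = 0 := by
    intro c
    by_cases h : ∃ t, c.2 = t * c.1
    · have hg : g c = (h.choose, c.1) := dif_pos h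
      have hs := h.choose_spec
      rw [hg]
      simp only
      refine exists_congr fun z => ?_
      rw [smul_sub, sub_eq_zero, ← mul_smul, ← op_mul, ← hs]
    · have hg : g c = (1, 0) := dif_neg h
      rw [hg]
      simp only [op_one, one_smul, op_zero, zero_smul, exists_const, iff_true]
      rcases hl c.1 c.2 with ⟨t, ht⟩ | ht
      · refine ⟨op t • x, ?_⟩
        rw [← mul_smul, ← op_mul, ← ht]
      · exact absurd ht h
  constructor
  · intro h c hc
    obtain ⟨c', hc', rfl⟩ := List.mem_map.1 hc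
    exact (h2 c').1 (h c' hc')
  · intro h c hc
    exact (h2 c).2 (h _ (List.mem_map.2 ⟨c, hc, rfl⟩))

end normal


section lattice

variable {R : Type u} [Ring R]

theorem exists_pp {ι κ : Type} [Fintype ι] [Fintype κ] (a : κ → R) (B : ι → κ → R) :
    ∃ φ : PP R, ∀ (M : Type u) [AddCommGroup M] [Module Rᵐᵒᵖ M] (x : M),
      φ.Sat M x ↔ ∃ y : ι → M, ∀ j, op (a j) • x + ∑ i, op (B i j) • y i = 0 := by
  classical
  let e := Fintype.equivFin ι
  let f := Fintype.equivFin κ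
  refine ⟨⟨Fintype.card ι, Fintype.card κ, fun j => a (f.symm j),
    fun i j => B (e.symm i) (f.symm j)⟩, fun M _ _ x => ?_⟩
  unfold PP.Sat
  constructor
  · rintro ⟨y, hy⟩
    refine ⟨fun i => y (e i), fun j => ?_⟩
    have := hy (f j)
    simp only [Equiv.symm_apply_apply] at this
    rw [← this]
    congr 1
    refine Fintype.sum_equiv e _ _ (fun i => by simp)
  · rintro ⟨y, hy⟩
    refine ⟨fun i => y (e.symm i), fun j => ?_⟩
    have := hy (f.symm j)
    rw [← this]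
    congr 1
    refine (Fintype.sum_equiv e _ _ (fun i => by simp)).symm

theorem exists_conj (φ ψ : PP R) :
    ∃ θ : PP R, ∀ (M : Type u) [AddCommGroup M] [Module Rᵐᵒᵖ M] (x : M),
      θ.Sat M x ↔ φ.Sat M x ∧ ψ.Sat M x := by
  obtain ⟨θ, hθ⟩ := exists_pp (ι := Fin φ.k ⊕ Fin ψ.k) (κ := Fin φ.m ⊕ Fin ψ.m)
    (Sum.elim φ.a ψ.a)
    (Sum.elim (fun i => Sum.elim (φ.B i) (fun _ => 0)) (fun i => Sum.elim (fun _ => 0) (ψ.B i)))
  refine ⟨θ, fun M _ _ x => ?_⟩
  rw [hθ]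
  unfold PP.Sat
  constructor
  · rintro ⟨y, hy⟩
    refine ⟨⟨fun i => y (Sum.inl i), fun j => ?_⟩, ⟨fun i => y (Sum.inr i), fun j => ?_⟩⟩
    · simpa using hy (Sum.inl j)
    · simpa using hy (Sum.inr j)
  · rintro ⟨⟨y, hy⟩, ⟨z, hz⟩⟩
    refine ⟨Sum.elim y z, fun j => ?_⟩
    rcases j with j | j
    · simpa using hy j
    · simpa using hz j

theorem exists_sum (φ ψ : PP R) :
    ∃ θ : PP R, ∀ (M : Type u) [AddCommGroup M] [Module Rᵐᵒᵖ M] (x : M),
      θ.Sat M x ↔ ∃ u v : M, φ.Sat M u ∧ ψ.Sat M v ∧ u + v = x := by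
  obtain ⟨θ, hθ⟩ := exists_pp (ι := Unit ⊕ (Fin φ.k ⊕ Fin ψ.k)) (κ := Fin φ.m ⊕ Fin ψ.m)
    (Sum.elim (fun _ => 0) ψ.a)
    (Sum.elim (fun _ => Sum.elim φ.a (fun j => - ψ.a j))
      (Sum.elim (fun i => Sum.elim (φ.B i) (fun _ => 0))
        (fun i => Sum.elim (fun _ => 0) (ψ.B i))))
  refine ⟨θ, fun M _ _ x => ?_⟩
  rw [hθ]
  unfold PP.Sat
  constructor
  · rintro ⟨y, hy⟩
    refine ⟨y (Sum.inl ()), x - y (Sum.inl ()), ⟨fun i => y (Sum.inr (Sum.inl i)), fun j => ?_⟩,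
      ⟨fun i => y (Sum.inr (Sum.inr i)), fun j => ?_⟩, by abel⟩
    · simpa using hy (Sum.inl j)
    · have := hy (Sum.inr j)
      simp at this
      rw [smul_sub, ← this]
      abel
  · rintro ⟨u, v, ⟨y, hy⟩, ⟨z, hz⟩, rfl⟩
    refine ⟨Sum.elim (fun _ => u) (Sum.elim y z), fun j => ?_⟩
    rcases j with j | j
    · simpa using hy j
    · have := hz j
      simp
      rw [← this]
      abel

instance : Lattice (PPLat R) :=
  { (inferInstance : PartialOrder (PPLat R)) with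
    inf := fun F G => ⟨F.1 ⊓ G.1, by
      obtain ⟨φ, hφ⟩ := F.2
      obtain ⟨ψ, hψ⟩ := G.2
      obtain ⟨θ, hθ⟩ := exists_conj φ ψ
      refine ⟨θ, fun M x => ?_⟩
      rw [hθ, ← hφ, ← hψ]
      exact AddSubgroup.mem_inf⟩
    sup := fun F G => ⟨F.1 ⊔ G.1, by
      obtain ⟨φ, hφ⟩ := F.2
      obtain ⟨ψ, hψ⟩ := G.2
      obtain ⟨θ, hθ⟩ := exists_sum φ ψ
      refine ⟨θ, fun M x => ?_⟩
      rw [hθ]
      change x ∈ F.1 M ⊔ G.1 M ↔ _
      rw [AddSubgroup.mem_sup]
      constructor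
      · rintro ⟨u, hu, v, hv, h⟩
        exact ⟨u, v, (hφ M u).1 hu, (hψ M v).1 hv, h⟩
      · rintro ⟨u, v, hu, hv, h⟩
        exact ⟨u, (hφ M u).2 hu, v, (hψ M v).2 hv, h⟩⟩
    inf_le_left := fun F G => (inf_le_left : F.1 ⊓ G.1 ≤ F.1)
    inf_le_right := fun F G => (inf_le_right : F.1 ⊓ G.1 ≤ G.1)
    le_inf := fun F G H h1 h2 => (le_inf h1 h2 : F.1 ≤ G.1 ⊓ H.1)
    le_sup_left := fun F G => (le_sup_left : F.1 ≤ F.1 ⊔ G.1)
    le_sup_right := fun F G => (le_sup_right : G.1 ≤ F.1 ⊔ G.1)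
    sup_le := fun F G H h1 h2 => (sup_le h1 h2 : F.1 ⊔ G.1 ≤ H.1) }

theorem le_def {F G : PPLat R} : F ≤ G ↔ ∀ (M : ModuleCat.{u} Rᵐᵒᵖ) (x : M), x ∈ F.1 M → x ∈ G.1 M :=
  Iff.rfl

theorem mem_inf' {F G : PPLat R} {M : ModuleCat.{u} Rᵐᵒᵖ} {x : M} :
    x ∈ (F ⊓ G).1 M ↔ x ∈ F.1 M ∧ x ∈ G.1 M := AddSubgroup.mem_inf

theorem mem_sup' {F G : PPLat R} {M : ModuleCat.{u} Rᵐᵒᵖ} {x : M} :
    x ∈ (F ⊔ G).1 M ↔ ∃ y ∈ F.1 M, ∃ z ∈ G.1 M, y + z = x := AddSubgroup.mem_sup

instance : IsModularLattice (PPLat R) where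
  sup_inf_le_assoc_of_le := by
    intro F G H h
    rw [le_def]
    intro M x hx
    rw [mem_inf', mem_sup'] at hx
    obtain ⟨⟨y, hy, z, hz, rfl⟩, hx⟩ := hx
    rw [mem_sup']
    refine ⟨y, hy, z, mem_inf'.2 ⟨hz, ?_⟩, rfl⟩
    have := AddSubgroup.sub_mem _ hx (h M hy)
    simpa using this

/-- the formula `a ∣ x` -/
def phi (a : R) : PPLat R :=
  ⟨fun M => (DistribSMul.toAddMonoidHom M (op a)).range, by
    obtain ⟨θ, hθ⟩ := exists_pp (R := R) (ι := Unit) (κ := Unit) (fun _ => 1) (fun _ _ => -a)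
    refine ⟨θ, fun M x => ?_⟩
    rw [hθ, AddMonoidHom.mem_range]
    constructor
    · rintro ⟨y, hy⟩
      refine ⟨fun _ => y, fun _ => ?_⟩
      simp at hy ⊢
      rw [← hy]
      abel
    · rintro ⟨y, hy⟩
      refine ⟨y (), ?_⟩
      have := hy ()
      simp at this ⊢
      rw [add_neg_eq_zero] at this
      exact this.symm⟩

/-- the formula `x b = 0` -/
def psi (b : R) : PPLat R :=
  ⟨fun M => (DistribSMul.toAddMonoidHom M (op b)).ker, by
    obtain ⟨θ, hθ⟩ := exists_pp (R := R) (ι := Empty) (κ := Unit) (fun _ => b) (fun _ _ => 0)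
    refine ⟨θ, fun M x => ?_⟩
    rw [hθ, AddMonoidHom.mem_ker]
    simp⟩

theorem mem_phi {a : R} {M : ModuleCat.{u} Rᵐᵒᵖ} {x : M} :
    x ∈ (phi a).1 M ↔ ∃ y : M, op a • y = x := Iff.rfl

theorem mem_psi {b : R} {M : ModuleCat.{u} Rᵐᵒᵖ} {x : M} :
    x ∈ (psi b).1 M ↔ op b • x = 0 := Iff.rfl

instance : OrderTop (PPLat R) where
  top := phi 1
  le_top := by
    intro F
    rw [le_def]
    intro M x _
    exact mem_phi.2 ⟨x, by simp⟩

theorem phi_one : (phi 1 : PPLat R) = ⊤ := rfl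

theorem mem_top' {M : ModuleCat.{u} Rᵐᵒᵖ} {x : M} : x ∈ (⊤ : PPLat R).1 M :=
  mem_phi.2 ⟨x, by simp⟩

theorem phi_le {a b : R} (h : ∃ t, a = t * b) : (phi a : PPLat R) ≤ phi b := by
  obtain ⟨t, rfl⟩ := h
  rw [le_def]
  rintro M x hx
  obtain ⟨y, rfl⟩ := mem_phi.1 hx
  exact mem_phi.2 ⟨op t • y, by rw [← mul_smul, ← op_mul]⟩

theorem psi_le {a b : R} (h : ∃ t, b = a * t) : (psi a : PPLat R) ≤ psi b := by
  obtain ⟨t, rfl⟩ := h
  rw [le_def]
  rintro M x hx
  rw [mem_psi] at hx ⊢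
  rw [op_mul, mul_smul, hx, smul_zero]

theorem psi_zero : (psi 0 : PPLat R) = ⊤ := by
  apply le_antisymm le_top
  rw [le_def]
  intro M x _
  exact mem_psi.2 (by simp)

theorem phi_zero_le (F : PPLat R) : phi 0 ≤ F := by
  rw [le_def]
  intro M x hx
  obtain ⟨y, rfl⟩ := mem_phi.1 hx
  simp

theorem psi_one_le (F : PPLat R) : psi 1 ≤ F := by
  rw [le_def]
  intro M x hx
  rw [mem_psi] at hx
  simp at hx
  subst hx
  exact AddSubgroup.zero_mem _

/-- meet of a list of sums -/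
def meet (L : List (R × R)) : PPLat R :=
  L.foldr (fun c acc => (phi c.1 ⊔ psi c.2) ⊓ acc) ⊤

theorem mem_meet {L : List (R × R)} {M : ModuleCat.{u} Rᵐᵒᵖ} {x : M} :
    x ∈ (meet L).1 M ↔ ∀ c ∈ L, ∃ y : M, op c.2 • (x - op c.1 • y) = 0 := by
  induction L with
  | nil => simp [meet, mem_top']
  | cons c L ih =>
    have : meet (c :: L) = (phi c.1 ⊔ psi c.2) ⊓ meet L := rfl
    rw [this, mem_inf', ih, List.forall_mem_cons]
    refine and_congr ?_ Iff.rfl
    rw [mem_sup']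
    constructor
    · rintro ⟨y, hy, z, hz, rfl⟩
      obtain ⟨w, rfl⟩ := mem_phi.1 hy
      rw [mem_psi] at hz
      exact ⟨w, by simpa using hz⟩
    · rintro ⟨y, hy⟩
      exact ⟨op c.1 • y, mem_phi.2 ⟨y, rfl⟩, x - op c.1 • y, mem_psi.2 hy, by abel⟩

theorem exists_meet (hl : ∀ a b : R, (∃ t, a = t * b) ∨ ∃ t, b = t * a)
    (hr : ∀ a b : R, (∃ t, a = b * t) ∨ ∃ t, b = a * t) (F : PPLat R) :
    ∃ L : List (R × R), F = meet L := by
  obtain ⟨φ, hφ⟩ := F.2
  obtain ⟨L, hL⟩ := cnf hl hr φ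
  refine ⟨L, ?_⟩
  apply le_antisymm
  · rw [le_def]
    intro M x hx
    rw [mem_meet, ← hL, ← hφ]
    exact hx
  · rw [le_def]
    intro M x hx
    rw [mem_meet, ← hL, ← hφ] at hx
    exact hx

theorem meet_le {L : List (R × R)} {c : R × R} (hc : c ∈ L) : meet L ≤ phi c.1 ⊔ psi c.2 := by
  induction L with
  | nil => simp at hc
  | cons d L ih =>
    have : meet (d :: L) = (phi d.1 ⊔ psi d.2) ⊓ meet L := rfl
    rw [this]
    rcases List.mem_cons.1 hc with rfl | hc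
    · exact inf_le_left
    · exact inf_le_right.trans (ih hc)

theorem Le_meet {n : ℕ} {A : PPLat R} {L : List (R × R)}
    (h : ∀ c ∈ L, Le n A (phi c.1 ⊔ psi c.2)) : Le n A (meet L) := by
  induction L with
  | nil => exact Le.of_le le_top
  | cons d L ih =>
    exact Le.inf_both (h d (by simp)) (ih (fun c hc => h c (by simp [hc])))

end lattice


section cells

variable {S : Type u} [Ring S]

/-- cell condition -/
def Cell (n : ℕ) (g g' h h' : S) : Prop :=
  Le n ((phi g : PPLat S) ⊓ psi h') (phi g' ⊔ psi h)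

theorem Cell.of_phi {n : ℕ} {g g' h h' : S} (H : (phi g : PPLat S) ≤ phi g') :
    Cell n g g' h h' := Le.of_le (inf_le_left.trans (H.trans le_sup_left))

theorem Cell.of_psi {n : ℕ} {g g' h h' : S} (H : (psi h' : PPLat S) ≤ psi h) :
    Cell n g g' h h' := Le.of_le (inf_le_right.trans (H.trans le_sup_right))

theorem Cell.succ {n : ℕ} {g g' h h' : S} (H : Cell n g g' h h') : Cell (n + 1) g g' h h' :=
  Le.succ H

theorem Cell.mono_p {n : ℕ} {g g' g'' h h' : S} (H : Cell n g g' h h')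
    (h1 : (phi g' : PPLat S) ≤ phi g'') : Cell n g g'' h h' :=
  Le.trans H (Le.of_le (sup_le_sup_right h1 _))

theorem Cell.mono_q {n : ℕ} {g g' h h' h'' : S} (H : Cell n g g' h h')
    (h1 : (psi h'' : PPLat S) ≤ psi h') : Cell n g g' h h'' :=
  Le.trans (Le.of_le (inf_le_inf_left _ h1)) H

theorem Cell.trans_p {n : ℕ} {g g' g'' h h' : S} (H1 : Cell n g g'' h h')
    (H2 : Cell n g'' g' h h') (hh : (psi h : PPLat S) ≤ psi h') : Cell n g g' h h' := by
  unfold Cell at *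
  have h1 : Le n ((phi g : PPLat S) ⊓ psi h') ((phi g'' ⊔ psi h) ⊓ psi h') :=
    Le.inf_both H1 (Le.of_le inf_le_right)
  have h2 : ((phi g'' : PPLat S) ⊔ psi h) ⊓ psi h' = (phi g'' ⊓ psi h') ⊔ psi h := by
    rw [sup_comm, sup_inf_assoc_of_le _ hh, sup_comm]
  rw [h2] at h1
  exact h1.trans (Le.sup_both H2 (Le.of_le le_sup_right))

theorem Cell.trans_q {n : ℕ} {g g' h h' h'' : S} (H1 : Cell n g g' h h'')
    (H2 : Cell n g g' h'' h') (hh : (phi g' : PPLat S) ≤ phi g) : Cell n g g' h h' := by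
  unfold Cell at *
  have h1 : Le n ((phi g : PPLat S) ⊓ psi h') ((phi g' ⊔ psi h'') ⊓ phi g) :=
    Le.inf_both H2 (Le.of_le inf_le_left)
  have h2 : ((phi g' : PPLat S) ⊔ psi h'') ⊓ phi g = (phi g ⊓ psi h'') ⊔ phi g' := by
    rw [sup_inf_assoc_of_le _ hh, sup_comm, inf_comm]
  rw [h2] at h1
  exact h1.trans (Le.sup_both H1 (Le.of_le le_sup_left))

theorem modid {L : Type*} [Lattice L] [IsModularLattice L] {p p' q q' : L} (hp : p' ≤ p)
    (hq : q ≤ q') : p ⊓ q' ⊓ (p' ⊔ q) = (p' ⊓ q') ⊔ (p ⊓ q) := by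
  have h1 : p ⊓ (p' ⊔ q) = p' ⊔ (p ⊓ q) := by
    rw [inf_comm, sup_inf_assoc_of_le _ hp, inf_comm]
  calc p ⊓ q' ⊓ (p' ⊔ q) = (p ⊓ (p' ⊔ q)) ⊓ q' := by
        rw [inf_assoc, inf_comm q', ← inf_assoc]
    _ = (p' ⊔ (p ⊓ q)) ⊓ q' := by rw [h1]
    _ = (p' ⊓ q') ⊔ (p ⊓ q) := by
        rw [sup_comm, sup_inf_assoc_of_le _ (inf_le_right.trans hq), sup_comm]

theorem cut (hl : ∀ a b : S, (∃ t, a = t * b) ∨ ∃ t, b = t * a)
    (hr : ∀ a b : S, (∃ t, a = b * t) ∨ ∃ t, b = a * t) {n : ℕ} {g g' h h' : S}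
    (Up Uq : S → Prop) (hgg : (phi g' : PPLat S) ≤ phi g) (hhh : (psi h : PPLat S) ≤ psi h')
    (mp : ∀ a, ¬ Up a → (phi a : PPLat S) ≤ phi g)
    (mq : ∀ b, ¬ Uq b → (psi b : PPLat S) ≤ psi h')
    (c1 : ∀ a, Up a → Cell n g a h h')
    (c2 : ∀ a, ¬ Up a → Cell n a g' h h')
    (c3 : ∀ b, Uq b → Cell n g g' b h')
    (c4 : ∀ b, ¬ Uq b → Cell n g g' h b) : Cell (n + 1) g g' h h' := by
  have ptot : ∀ a b : S, (phi a : PPLat S) ≤ phi b ∨ (phi b : PPLat S) ≤ phi a := by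
    intro a b
    rcases hl a b with h | h
    · exact Or.inl (phi_le h)
    · exact Or.inr (phi_le h)
  have qtot : ∀ a b : S, (psi a : PPLat S) ≤ psi b ∨ (psi b : PPLat S) ≤ psi a := by
    intro a b
    rcases hr a b with h | h
    · exact Or.inr (psi_le h)
    · exact Or.inl (psi_le h)
  apply Le.step
  intro x hx1 hx2
  obtain ⟨L, rfl⟩ := exists_meet hl hr x
  by_cases H : ∃ c ∈ L, ¬ Up c.1 ∧ ¬ Uq c.2
  · left
    obtain ⟨c, hc, hp, hq⟩ := H
    have h1 : meet L ≤ (phi g ⊓ psi h') ⊓ (phi c.1 ⊔ psi c.2) := le_inf hx2 (meet_le hc)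
    rw [modid (mp _ hp) (mq _ hq)] at h1
    refine (Le.of_le h1).trans (Le.sup_both ?_ ?_)
    · exact c2 _ hp
    · exact c4 _ hq
  · right
    push Not at H
    apply Le_meet
    intro c hc
    have hxc : (phi g ⊓ psi h') ⊓ (phi g' ⊔ psi h) ≤ phi c.1 ⊔ psi c.2 :=
      hx1.trans (meet_le hc)
    rw [modid hgg hhh] at hxc
    by_cases hp : Up c.1
    · rcases ptot g c.1 with h1 | h1
      · exact Le.of_le (inf_le_left.trans (h1.trans le_sup_left))
      · have h2 : Le n ((phi g : PPLat S) ⊓ psi h') ((phi c.1 ⊔ psi h) ⊓ phi g) :=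
          Le.inf_both (c1 _ hp) (Le.of_le inf_le_left)
        refine h2.trans (Le.of_le ?_)
        rw [sup_inf_assoc_of_le _ h1, inf_comm]
        exact sup_le le_sup_left (le_sup_right.trans hxc)
    · have hq := H c hc hp
      rcases qtot h' c.2 with h1 | h1
      · exact Le.of_le (inf_le_right.trans (h1.trans le_sup_right))
      · have h2 : Le n ((phi g : PPLat S) ⊓ psi h') ((psi c.2 ⊔ phi g') ⊓ psi h') := by
          refine Le.inf_both ?_ (Le.of_le inf_le_right)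
          rw [sup_comm]
          exact c3 _ hq
        refine h2.trans (Le.of_le ?_)
        rw [sup_inf_assoc_of_le _ h1]
        exact sup_le le_sup_right (le_sup_left.trans hxc)

end cells


/-- a filtration of a chain ring by levels, used only inside proofs -/
structure LS (S : Type u) [Ring S] where
  lev : S → ℕ∞
  t : S
  X : ℕ → S
  hl : ∀ a b : S, (∃ t, a = t * b) ∨ ∃ t, b = t * a
  hr : ∀ a b : S, (∃ t, a = b * t) ∨ ∃ t, b = a * t
  hX : ∀ n, lev (X n) = n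
  htop : ∀ a, lev a = ⊤ → a = 0
  hone : lev 1 = 0
  hp : ∀ a b, lev a < lev b → ∃ r, b = r * a
  hq : ∀ a b, lev a < lev b → ∃ r, b = a * r
  adjp : ∀ a g r, a = r * g → (∃ s, g = s * a) ∨ ∃ s, a = s * (t * g)
  adjq : ∀ b h r, b = h * r → (∃ s, h = b * s) ∨ ∃ s, b = (h * t) * s
  sp : ∀ g g' r, lev g = lev g' → lev g ≠ ⊤ → g' = r * g → ∃ i : ℕ, ∃ s, t ^ i * g = s * g'
  sq : ∀ h h' r, lev h = lev h' → lev h ≠ ⊤ → h' = h * r → ∃ i : ℕ, ∃ s, h * t ^ i = h' * s
  levtp : ∀ g, lev (t * g) = lev g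
  levtq : ∀ h, lev (h * t) = lev h
  K : ∀ g g' h h', lev g = lev g' → lev h = lev h' → lev g ≠ ⊤ → lev h ≠ ⊤ →
    1 ≤ lev g + lev h → ∃ s w, g * h = s * g' * h + g * h' * w

namespace LS

variable {S : Type u} [Ring S] (D : LS S)

include D

theorem php {a b : S} (h : D.lev a < D.lev b) : (phi b : PPLat S) ≤ phi a := phi_le (D.hp a b h)

theorem phq {a b : S} (h : D.lev a < D.lev b) : (psi a : PPLat S) ≤ psi b := psi_le (D.hq a b h)

theorem ptot (a b : S) : (∃ r, a = r * b) ∨ ∃ r, b = r * a := D.hl a b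

theorem K0 {g g' h h' : S} (h1 : D.lev g = D.lev g') (h2 : D.lev h = D.lev h')
    (h3 : D.lev g ≠ ⊤) (h4 : D.lev h ≠ ⊤) (h5 : 1 ≤ D.lev g + D.lev h) : Cell 0 g g' h h' := by
  obtain ⟨s, w, hs⟩ := D.K g g' h h' h1 h2 h3 h4 h5
  apply Le.of_le
  rw [le_def]
  intro M z hz
  obtain ⟨hz1, hz2⟩ := mem_inf'.1 hz
  obtain ⟨y, rfl⟩ := mem_phi.1 hz1
  rw [mem_psi, ← mul_smul, ← op_mul] at hz2
  rw [mem_sup']
  refine ⟨op g' • op s • y, mem_phi.2 ⟨_, rfl⟩, op g • y - op g' • op s • y, mem_psi.2 ?_,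
    by abel⟩
  rw [smul_sub, ← mul_smul, ← mul_smul, ← mul_smul, ← op_mul, ← op_mul, ← op_mul, hs, op_add,
    add_smul, op_mul (g * h') w, mul_smul (op w), hz2, smul_zero, add_zero, mul_assoc, sub_self]

/-- we may assume the endpoints are ordered -/
theorem wlog_p {n : ℕ} {g g' h h' : S}
    (H : (∃ r, g' = r * g) → Cell n g g' h h') : Cell n g g' h h' := by
  rcases D.hl g g' with h1 | h1
  · exact Cell.of_phi (phi_le h1)
  · exact H h1

theorem wlog_q {n : ℕ} {g g' h h' : S}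
    (H : (∃ r, h' = h * r) → Cell n g g' h h') : Cell n g g' h h' := by
  rcases D.hr h h' with h1 | h1
  · exact Cell.of_psi (psi_le h1)
  · exact H h1

theorem levtpow (g : S) (i : ℕ) : D.lev (D.t ^ i * g) = D.lev g := by
  induction i with
  | zero => simp
  | succ i ih => rw [pow_succ', mul_assoc, D.levtp, ih]

theorem levpowt (h : S) (i : ℕ) : D.lev (h * D.t ^ i) = D.lev h := by
  induction i with
  | zero => simp
  | succ i ih => rw [pow_succ, ← mul_assoc, D.levtq, ih]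

/-- reduce same-level cells (p side) to adjacent ones -/
theorem adj_red_p {n : ℕ} {g g' h h' : S} (hg : D.lev g = D.lev g') (hgt : D.lev g ≠ ⊤)
    (H : ∀ g₁, D.lev g₁ = D.lev g → Cell n g₁ (D.t * g₁) h h') : Cell n g g' h h' := by
  refine D.wlog_p fun ⟨r, hr⟩ => D.wlog_q fun ⟨r', hr'⟩ => ?_
  obtain ⟨i, s, hs⟩ := D.sp g g' r hg hgt hr
  have key : ∀ i : ℕ, Cell n g (D.t ^ i * g) h h' := by
    intro i
    induction i with
    | zero => exact Cell.of_phi (phi_le ⟨1, by simp⟩)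
    | succ i ih =>
      refine Cell.trans_p ih ?_ (psi_le ⟨r', hr'⟩)
      rw [pow_succ', mul_assoc]
      exact H _ (D.levtpow g i)
  exact (key i).mono_p (phi_le ⟨s, hs⟩)

theorem adj_red_q {n : ℕ} {g g' h h' : S} (hg : D.lev h = D.lev h') (hgt : D.lev h ≠ ⊤)
    (H : ∀ h₁, D.lev h₁ = D.lev h → Cell n g g' h₁ (h₁ * D.t)) : Cell n g g' h h' := by
  refine D.wlog_p fun ⟨r, hr⟩ => D.wlog_q fun ⟨r', hr'⟩ => ?_
  obtain ⟨i, s, hs⟩ := D.sq h h' r' hg hgt hr'
  have key : ∀ i : ℕ, Cell n g g' h (h * D.t ^ i) := by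
    intro i
    induction i with
    | zero => exact Cell.of_psi (psi_le ⟨1, by simp⟩)
    | succ i ih =>
      refine Cell.trans_q ih ?_ (phi_le ⟨r, hr⟩)
      rw [pow_succ, ← mul_assoc]
      exact H _ (D.levpowt h i)
  exact (key i).mono_q (psi_le ⟨s, hs⟩)

/-- cut with an adjacent pair on the `p` side -/
theorem cut_adj_p {n : ℕ} {g h h' : S} (Uq : S → Prop)
    (hhh : (psi h : PPLat S) ≤ psi h')
    (mq : ∀ b, ¬ Uq b → (psi b : PPLat S) ≤ psi h')
    (c3 : ∀ b, Uq b → Cell n g (D.t * g) b h')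
    (c4 : ∀ b, ¬ Uq b → Cell n g (D.t * g) h b) : Cell (n + 1) g (D.t * g) h h' := by
  refine cut D.hl D.hr (fun a => (phi g : PPLat S) ≤ phi a) Uq (phi_le ⟨D.t, rfl⟩) hhh ?_ mq
    (fun a ha => Cell.of_phi ha) ?_ c3 c4
  · intro a ha
    rcases D.hl g a with h1 | h1
    · exact absurd (phi_le h1) ha
    · exact phi_le h1
  · intro a ha
    rcases D.hl g a with h1 | ⟨r, h1⟩
    · exact absurd (phi_le h1) ha
    · rcases D.adjp a g r h1 with h2 | h2
      · exact absurd (phi_le h2) ha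
      · exact Cell.of_phi (phi_le h2)

theorem cut_adj_q {n : ℕ} {g g' h : S} (Up : S → Prop)
    (hgg : (phi g' : PPLat S) ≤ phi g)
    (mp : ∀ a, ¬ Up a → (phi a : PPLat S) ≤ phi g)
    (c1 : ∀ a, Up a → Cell n g a h (h * D.t))
    (c2 : ∀ a, ¬ Up a → Cell n a g' h (h * D.t)) : Cell (n + 1) g g' h (h * D.t) := by
  refine cut D.hl D.hr Up (fun b => (psi (h * D.t) : PPLat S) ≤ psi b) hgg
    (psi_le ⟨D.t, rfl⟩) mp ?_ c1 c2
    (fun b hb => Cell.of_psi hb) ?_
  · intro b hb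
    rcases D.hr b (h * D.t) with h1 | h1
    · exact absurd (psi_le h1) hb
    · exact psi_le h1
  · intro b hb
    rcases D.hr b h with ⟨r, h1⟩ | h1
    · rcases D.adjq b h r h1 with h2 | h2
      · exact Cell.of_psi (psi_le h2)
      · exact absurd (psi_le h2) hb
    · exact Cell.of_psi (psi_le h1)

/-- (1a) -/
theorem c1a {g g' h h' : S} (hg : D.lev g = D.lev g') (hgt : D.lev g ≠ ⊤)
    (hh : D.lev h = D.lev h') (hht : D.lev h ≠ ⊤) : Cell 1 g g' h h' := by
  refine D.adj_red_p hg hgt fun g₁ _ => D.adj_red_q hh hht fun h₁ _ => ?_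
  refine D.cut_adj_p (fun b => (psi (h₁ * D.t) : PPLat S) ≤ psi b) (psi_le ⟨D.t, rfl⟩) ?_
    (fun b hb => Cell.of_psi hb) ?_
  · intro b hb
    rcases D.hr b (h₁ * D.t) with h1 | h1
    · exact absurd (psi_le h1) hb
    · exact psi_le h1
  · intro b hb
    rcases D.hr b h₁ with ⟨r, h1⟩ | h1
    · rcases D.adjq b h₁ r h1 with h2 | h2
      · exact Cell.of_psi (psi_le h2)
      · exact absurd (psi_le h2) hb
    · exact Cell.of_psi (psi_le h1)

theorem lev_eq_of {a : S} {n : ℕ} (h1 : ¬ D.lev a < n) (h2 : ¬ (n : ℕ∞) < D.lev a) :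
    D.lev a = n := le_antisymm (not_lt.1 h2) (not_lt.1 h1)

theorem lt_succ {a : S} {n : ℕ} : ¬ ((n : ℕ∞) + 1 ≤ D.lev a) ↔ ¬ ((n : ℕ∞) < D.lev a) := by
  rw [ENat.add_one_le_iff (ENat.natCast_ne_top n)]

/-- (1b) -/
theorem c1b : ∀ (d m n : ℕ) {g g' h h' : S}, D.lev g = n → D.lev g' = n → D.lev h = m →
    D.lev h' = (m + d : ℕ) → 1 ≤ n + m → Cell 1 g g' h h' := by
  intro d
  induction d with
  | zero =>
    intro m n g g' h h' hg hg' hh hh' _
    exact D.c1a (hg.trans hg'.symm) (by simp [hg]) (by simp [hh, hh']) (by simp [hh])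
  | succ d ih =>
    intro m n g g' h h' hg hg' hh hh' hnm
    have step : ∀ h'' : S, D.lev h'' = (m + 1 : ℕ) → Cell 1 g g' h h'' := by
      intro h'' hh''
      refine D.adj_red_p (hg.trans hg'.symm) (by simp [hg]) fun g₁ hg₁ => ?_
      rw [hg] at hg₁
      have hgt : D.lev (D.t * g₁) = n := by rw [D.levtp, hg₁]
      refine D.cut_adj_p (fun b => (m : ℕ∞) < D.lev b) (D.phq (by rw [hh, hh'']; exact_mod_cast Nat.lt_succ_self m)) ?_ ?_ ?_
      · intro b hb
        refine D.phq (lt_of_le_of_lt (not_lt.1 hb) ?_)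
        rw [hh'']; exact_mod_cast Nat.lt_succ_self m
      · intro b hb
        by_cases hb2 : D.lev h'' < D.lev b
        · exact Cell.of_psi (D.phq hb2)
        · have hb3 : D.lev b = D.lev h'' := by
            apply le_antisymm (not_lt.1 hb2)
            rw [hh'']
            have := Order.add_one_le_of_lt hb
            exact_mod_cast this
          exact D.K0 (hg₁.trans hgt.symm) hb3 (by simp [hg₁]) (by rw [hb3, hh'']; exact ENat.natCast_ne_top _)
            (by rw [hg₁, hb3, hh'']; exact_mod_cast (by omega : 1 ≤ n + (m + 1)))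
      · intro b hb
        by_cases hb2 : D.lev b < m
        · exact Cell.of_psi (D.phq (by rw [hh]; exact hb2))
        · have hb3 : D.lev b = m := D.lev_eq_of hb2 hb
          exact D.K0 (hg₁.trans hgt.symm) (hh.trans hb3.symm) (by simp [hg₁]) (by simp [hh])
            (by rw [hg₁, hh]; exact_mod_cast hnm)
    refine D.wlog_p fun ⟨r, hr⟩ => ?_
    refine Cell.trans_q (step (D.X (m + 1)) (D.hX _)) ?_ (phi_le ⟨r, hr⟩)
    exact ih (m + 1) n hg hg' (D.hX _) (by rw [hh']; congr 1; omega) (by omega)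

/-- (1b') -/
theorem c1b' : ∀ (d n m : ℕ) {g g' h h' : S}, D.lev h = m → D.lev h' = m → D.lev g = n →
    D.lev g' = (n + d : ℕ) → 1 ≤ n + m → Cell 1 g g' h h' := by
  intro d
  induction d with
  | zero =>
    intro n m g g' h h' hh hh' hg hg' _
    exact D.c1a (by simp [hg, hg']) (by simp [hg]) (hh.trans hh'.symm) (by simp [hh])
  | succ d ih =>
    intro n m g g' h h' hh hh' hg hg' hnm
    have step : ∀ g'' : S, D.lev g'' = (n + 1 : ℕ) → Cell 1 g g'' h h' := by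
      intro g'' hg''
      refine D.adj_red_q (hh.trans hh'.symm) (by simp [hh]) fun h₁ hh₁ => ?_
      rw [hh] at hh₁
      have hht : D.lev (h₁ * D.t) = m := by rw [D.levtq, hh₁]
      refine D.cut_adj_q (fun b => ¬ (n : ℕ∞) < D.lev b) (D.php (by rw [hg, hg'']; exact_mod_cast Nat.lt_succ_self n)) ?_ ?_ ?_
      · intro b hb
        rw [not_not] at hb
        refine D.php ?_
        rw [hg]; exact hb
      · intro b hb
        by_cases hb2 : D.lev b < n
        · exact Cell.of_phi (D.php (by rw [hg]; exact hb2))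
        · have hb3 : D.lev b = n := D.lev_eq_of hb2 hb
          exact D.K0 (hg.trans hb3.symm) (hh₁.trans hht.symm) (by simp [hg]) (by simp [hh₁])
            (by rw [hg, hh₁]; exact_mod_cast hnm)
      · intro b hb
        rw [not_not] at hb
        by_cases hb2 : D.lev g'' < D.lev b
        · exact Cell.of_phi (D.php hb2)
        · have hb3 : D.lev b = D.lev g'' := by
            apply le_antisymm (not_lt.1 hb2)
            rw [hg'']
            have := Order.add_one_le_of_lt hb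
            exact_mod_cast this
          exact D.K0 hb3 (hh₁.trans hht.symm) (by rw [hb3, hg'']; exact ENat.natCast_ne_top _) (by simp [hh₁])
            (by rw [hb3, hg'', hh₁]; exact_mod_cast (by omega : 1 ≤ n + 1 + m))
    refine D.wlog_q fun ⟨r, hr⟩ => ?_
    refine Cell.trans_p (step (D.X (n + 1)) (D.hX _)) ?_ (psi_le ⟨r, hr⟩)
    exact ih (n + 1) m hh hh' (D.hX _) (by rw [hg']; congr 1; omega) (by omega)

theorem psi_le_top {a b : S} (h : D.lev b = ⊤) : (psi a : PPLat S) ≤ psi b := by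
  rw [D.htop b h, psi_zero]
  exact le_top

theorem phi_le_top {a b : S} (h : D.lev b = ⊤) : (phi b : PPLat S) ≤ phi a := by
  rw [D.htop b h]
  exact phi_zero_le _

theorem c1bF {m n : ℕ} {g g' h h' : S} (hg : D.lev g = n) (hg' : D.lev g' = n)
    (hh : D.lev h = m) (hh' : D.lev h' ≠ ⊤) (hnm : 1 ≤ n + m) : Cell 1 g g' h h' := by
  obtain ⟨k, hk⟩ := ENat.ne_top_iff_exists.1 hh'
  by_cases hkm : k < m
  · exact Cell.of_psi (D.phq (by rw [← hk, hh]; exact_mod_cast hkm))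
  · exact D.c1b (k - m) m n hg hg' hh (by rw [← hk]; congr 1; omega) hnm

theorem c1bF' {m n : ℕ} {g g' h h' : S} (hh : D.lev h = m) (hh' : D.lev h' = m)
    (hg : D.lev g = n) (hg' : D.lev g' ≠ ⊤) (hnm : 1 ≤ n + m) : Cell 1 g g' h h' := by
  obtain ⟨k, hk⟩ := ENat.ne_top_iff_exists.1 hg'
  by_cases hkm : k < n
  · exact Cell.of_phi (D.php (by rw [← hk, hg]; exact_mod_cast hkm))
  · exact D.c1b' (k - n) n m hh hh' hg (by rw [← hk]; congr 1; omega) hnm

theorem c2aA {m n : ℕ} {g h h' : S} (hg : D.lev g = n)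
    (hh : D.lev h = m) (hnm : 1 ≤ n + m) : Cell 2 g (D.t * g) h h' := by
  have hgt : D.lev (D.t * g) = n := by rw [D.levtp, hg]
  by_cases hh' : D.lev h' = ⊤
  · refine D.cut_adj_p (fun b => D.lev b = ⊤) (D.psi_le_top hh') (fun b _ => D.psi_le_top hh')
      (fun b hb => Cell.of_psi (D.psi_le_top hb)) (fun b hb => D.c1bF hg hgt hh hb hnm)
  · exact (D.c1bF hg hgt hh hh' hnm).succ

/-- (2a) -/
theorem c2a {n : ℕ} {g g' h h' : S} (hg : D.lev g = n) (hg' : D.lev g' = n) :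
    Cell 2 g g' h h' := by
  refine D.adj_red_p (hg.trans hg'.symm) (by simp [hg]) fun g₁ hg₁ => ?_
  rw [hg] at hg₁
  by_cases hht : D.lev h = ⊤
  · exact Cell.of_psi (D.psi_le_top hht)
  obtain ⟨m, hm⟩ := ENat.ne_top_iff_exists.1 hht
  by_cases hnm : 1 ≤ n + m
  · exact D.c2aA hg₁ hm.symm hnm
  have hn0 : n = 0 := by omega
  have hm0 : m = 0 := by omega
  subst hn0; subst hm0
  have hgt : D.lev (D.t * g₁) = (0 : ℕ) := by rw [D.levtp, hg₁]
  by_cases hh0 : D.lev h' = 0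
  · refine Cell.succ (D.c1a (hg₁.trans hgt.symm) (by simp [hg₁]) ?_ (by simp [← hm]))
    rw [hh0, ← hm]; rfl
  have h1 : Cell 2 g₁ (D.t * g₁) h (D.X 1) := by
    refine D.cut_adj_p (fun b => ((0 : ℕ) : ℕ∞) < D.lev b) (D.phq (by rw [← hm, D.hX]; exact_mod_cast Nat.zero_lt_one)) ?_ ?_ ?_
    · intro b hb
      refine D.phq (lt_of_le_of_lt (not_lt.1 hb) ?_)
      rw [D.hX]; exact_mod_cast Nat.zero_lt_one
    · intro b hb
      by_cases hb2 : D.lev (D.X 1) < D.lev b
      · exact Cell.of_psi (D.phq hb2)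
      · have hb3 : D.lev b = D.lev (D.X 1) := by
          apply le_antisymm (not_lt.1 hb2)
          rw [D.hX]
          have := Order.add_one_le_of_lt hb
          exact_mod_cast this
        exact Cell.succ (D.K0 (hg₁.trans hgt.symm) hb3 (by simp [hg₁]) (by rw [hb3, D.hX]; exact ENat.natCast_ne_top _)
          (by rw [hg₁, hb3, D.hX]; norm_num))
    · intro b hb
      refine D.c1a (hg₁.trans hgt.symm) (by simp [hg₁]) ?_ (by simp [← hm])
      rw [← hm]
      exact le_antisymm (by simp) (not_lt.1 hb)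
  refine Cell.trans_q h1 ?_ (phi_le ⟨D.t, rfl⟩)
  exact D.c2aA hg₁ (D.hX 1) (by omega)

theorem c2aA' {m n : ℕ} {g g' h : S} (hh : D.lev h = m)
    (hg : D.lev g = n) (hnm : 1 ≤ n + m) : Cell 2 g g' h (h * D.t) := by
  have hht : D.lev (h * D.t) = m := by rw [D.levtq, hh]
  by_cases hg' : D.lev g' = ⊤
  · refine D.cut_adj_q (fun b => ¬ D.lev b = ⊤) (D.phi_le_top hg') (fun b hb => D.phi_le_top (not_not.1 hb))
      (fun b hb => D.c1bF' hh hht hg hb hnm)
      (fun b hb => Cell.of_phi (D.phi_le_top (not_not.1 hb)))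
  · exact (D.c1bF' hh hht hg hg' hnm).succ

/-- (2a') -/
theorem c2a' {m : ℕ} {g g' h h' : S} (hh : D.lev h = m) (hh' : D.lev h' = m) :
    Cell 2 g g' h h' := by
  refine D.adj_red_q (hh.trans hh'.symm) (by simp [hh]) fun h₁ hh₁ => ?_
  rw [hh] at hh₁
  by_cases hgt : D.lev g = ⊤
  · exact Cell.of_phi (D.phi_le_top hgt)
  obtain ⟨n, hn⟩ := ENat.ne_top_iff_exists.1 hgt
  by_cases hnm : 1 ≤ n + m
  · exact D.c2aA' hh₁ hn.symm hnm
  have hn0 : n = 0 := by omega
  have hm0 : m = 0 := by omega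
  subst hn0; subst hm0
  have hht : D.lev (h₁ * D.t) = (0 : ℕ) := by rw [D.levtq, hh₁]
  by_cases hg0 : D.lev g' = 0
  · refine Cell.succ (D.c1a ?_ (by simp [← hn]) (hh₁.trans hht.symm) (by simp [hh₁]))
    rw [hg0, ← hn]; rfl
  have h1 : Cell 2 g (D.X 1) h₁ (h₁ * D.t) := by
    refine D.cut_adj_q (fun b => ¬ ((0 : ℕ) : ℕ∞) < D.lev b) (D.php (by rw [← hn, D.hX]; exact_mod_cast Nat.zero_lt_one)) ?_ ?_ ?_
    · intro b hb
      rw [not_not] at hb
      refine D.php ?_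
      rw [← hn]; exact hb
    · intro b hb
      refine D.c1a ?_ (by simp [← hn]) (hh₁.trans hht.symm) (by simp [hh₁])
      rw [← hn]
      exact le_antisymm (by simp) (not_lt.1 hb)
    · intro b hb
      rw [not_not] at hb
      by_cases hb2 : D.lev (D.X 1) < D.lev b
      · exact Cell.of_phi (D.php hb2)
      · have hb3 : D.lev b = D.lev (D.X 1) := by
          apply le_antisymm (not_lt.1 hb2)
          rw [D.hX]
          have := Order.add_one_le_of_lt hb
          exact_mod_cast this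
        exact Cell.succ (D.K0 hb3 (hh₁.trans hht.symm) (by rw [hb3, D.hX]; exact ENat.natCast_ne_top _) (by simp [hh₁])
          (by rw [hh₁, hb3, D.hX]; norm_num))
  refine Cell.trans_p h1 ?_ (psi_le ⟨D.t, rfl⟩)
  exact D.c2aA' hh₁ (D.hX 1) (by omega)

theorem lev_succ_of {b b' : S} {n : ℕ} (hb : (n : ℕ∞) < D.lev b) (hb' : D.lev b' = (n + 1 : ℕ))
    (h : ¬ D.lev b' < D.lev b) : D.lev b = (n + 1 : ℕ) := by
  apply le_antisymm
  · rw [← hb']; exact not_lt.1 h
  · have := Order.add_one_le_of_lt hb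
    exact_mod_cast this

theorem c2b_base {m n : ℕ} {g g' h h' : S} (hg : D.lev g = n) (hg' : D.lev g' = (n + 1 : ℕ))
    (hh : D.lev h = m) (hh' : D.lev h' = (m + 1 : ℕ)) (hnm : 1 ≤ n + m) : Cell 2 g g' h h' := by
  have l1 : D.lev g < D.lev g' := by rw [hg, hg']; exact_mod_cast Nat.lt_succ_self n
  have l2 : D.lev h < D.lev h' := by rw [hh, hh']; exact_mod_cast Nat.lt_succ_self m
  refine cut D.hl D.hr (fun a => ¬ (n : ℕ∞) < D.lev a) (fun b => (m : ℕ∞) < D.lev b)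
    (D.php l1) (D.phq l2) ?_ ?_ ?_ ?_ ?_ ?_
  · intro a ha
    exact D.php (by rw [hg]; exact not_not.1 ha)
  · intro b hb
    exact D.phq (lt_of_le_of_lt (not_lt.1 hb) (by rw [hh']; exact_mod_cast Nat.lt_succ_self m))
  · intro a ha
    by_cases ha2 : D.lev a < n
    · exact Cell.of_phi (D.php (by rw [hg]; exact ha2))
    · exact D.c1b 1 m n hg (D.lev_eq_of ha2 ha) hh hh' hnm
  · intro a ha
    rw [not_not] at ha
    by_cases ha2 : D.lev g' < D.lev a
    · exact Cell.of_phi (D.php ha2)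
    · exact D.c1b 1 m (n + 1) (D.lev_succ_of ha hg' ha2) hg' hh hh' (by omega)
  · intro b hb
    by_cases hb2 : D.lev h' < D.lev b
    · exact Cell.of_psi (D.phq hb2)
    · exact D.c1b' 1 n (m + 1) (D.lev_succ_of hb hh' hb2) hh' hg hg' (by omega)
  · intro b hb
    by_cases hb2 : D.lev b < m
    · exact Cell.of_psi (D.phq (by rw [hh]; exact hb2))
    · exact D.c1b' 1 n m hh (D.lev_eq_of hb2 hb) hg hg' hnm

theorem c2b_aux : ∀ (e m n : ℕ) {g g' h h' : S}, D.lev g = n → D.lev g' = (n + 1 : ℕ) →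
    D.lev h = m → D.lev h' = (m + e : ℕ) → 1 ≤ n + m → Cell 2 g g' h h' := by
  intro e
  induction e with
  | zero =>
    intro m n g g' h h' hg hg' hh hh' hnm
    exact (D.c1b' 1 n m hh (by simpa using hh') hg hg' hnm).succ
  | succ e ih =>
    intro m n g g' h h' hg hg' hh hh' hnm
    have l1 : D.lev g < D.lev g' := by rw [hg, hg']; exact_mod_cast Nat.lt_succ_self n
    refine Cell.trans_q (D.c2b_base hg hg' hh (D.hX (m + 1)) hnm) ?_ (D.php l1)
    exact ih (m + 1) n hg hg' (D.hX _) (by rw [hh']; congr 1; omega) (by omega)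

/-- (2b) -/
theorem c2b : ∀ (d e m n : ℕ) {g g' h h' : S}, D.lev g = n → D.lev g' = (n + d : ℕ) →
    D.lev h = m → D.lev h' = (m + e : ℕ) → 1 ≤ n + m → Cell 2 g g' h h' := by
  intro d
  induction d with
  | zero =>
    intro e m n g g' h h' hg hg' hh hh' hnm
    exact (D.c1b e m n hg (by simpa using hg') hh hh' hnm).succ
  | succ d ih =>
    intro e m n g g' h h' hg hg' hh hh' hnm
    refine D.wlog_q fun ⟨r, hr⟩ => ?_
    refine Cell.trans_p (D.c2b_aux e m n hg (D.hX (n + 1)) hh hh' hnm) ?_ (psi_le ⟨r, hr⟩)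
    exact ih e m (n + 1) (D.hX _) (by rw [hg']; congr 1; omega) hh hh' (by omega)

theorem c2bF {m n : ℕ} {g g' h h' : S} (hg : D.lev g = n) (hg' : D.lev g' ≠ ⊤)
    (hh : D.lev h = m) (hh' : D.lev h' ≠ ⊤) (hnm : 1 ≤ n + m) : Cell 2 g g' h h' := by
  obtain ⟨k, hk⟩ := ENat.ne_top_iff_exists.1 hh'
  obtain ⟨l, hl⟩ := ENat.ne_top_iff_exists.1 hg'
  by_cases hkm : k < m
  · exact Cell.of_psi (D.phq (by rw [← hk, hh]; exact_mod_cast hkm))
  by_cases hln : l < n
  · exact Cell.of_phi (D.php (by rw [← hl, hg]; exact_mod_cast hln))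
  exact D.c2b (l - n) (k - m) m n hg (by rw [← hl]; congr 1; omega) hh
    (by rw [← hk]; congr 1; omega) hnm

theorem c3a_base {g g' h h' : S} (hg : D.lev g = (0 : ℕ)) (hg' : D.lev g' = (0 + 1 : ℕ))
    (hh : D.lev h = (0 : ℕ)) (hh' : D.lev h' = (0 + 1 : ℕ)) : Cell 3 g g' h h' := by
  have l1 : D.lev g < D.lev g' := by rw [hg, hg']; exact_mod_cast Nat.lt_succ_self 0
  have l2 : D.lev h < D.lev h' := by rw [hh, hh']; exact_mod_cast Nat.lt_succ_self 0
  refine cut D.hl D.hr (fun a => ¬ ((0 : ℕ) : ℕ∞) < D.lev a) (fun b => ((0 : ℕ) : ℕ∞) < D.lev b)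
    (D.php l1) (D.phq l2) ?_ ?_ ?_ ?_ ?_ ?_
  · intro a ha
    exact D.php (by rw [hg]; exact not_not.1 ha)
  · intro b hb
    exact D.phq (lt_of_le_of_lt (not_lt.1 hb) (by rw [hh']; exact_mod_cast Nat.lt_succ_self 0))
  · intro a ha
    exact D.c2a hg (le_antisymm (not_lt.1 ha) (by simp))
  · intro a ha
    rw [not_not] at ha
    by_cases ha2 : D.lev g' < D.lev a
    · exact Cell.of_phi (D.php ha2)
    · exact D.c2a (D.lev_succ_of ha hg' ha2) hg'
  · intro b hb
    by_cases hb2 : D.lev h' < D.lev b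
    · exact Cell.of_psi (D.phq hb2)
    · exact D.c2a' (D.lev_succ_of hb hh' hb2) hh'
  · intro b hb
    exact D.c2a' hh (le_antisymm (not_lt.1 hb) (by simp))

/-- (3a) -/
theorem c3a {g g' h h' : S} (hg : D.lev g ≠ ⊤) (hg' : D.lev g' ≠ ⊤)
    (hh : D.lev h ≠ ⊤) (hh' : D.lev h' ≠ ⊤) : Cell 3 g g' h h' := by
  refine D.wlog_p fun ⟨r, hr⟩ => D.wlog_q fun ⟨r', hr'⟩ => ?_
  obtain ⟨n, hn⟩ := ENat.ne_top_iff_exists.1 hg
  obtain ⟨m, hm⟩ := ENat.ne_top_iff_exists.1 hh
  by_cases hnm : 1 ≤ n + m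
  · exact (D.c2bF hn.symm hg' hm.symm hh' hnm).succ
  have hn0 : n = 0 := by omega
  have hm0 : m = 0 := by omega
  subst hn0; subst hm0
  have l1 : D.lev g < D.lev (D.X 1) := by rw [← hn, D.hX]; exact_mod_cast Nat.lt_succ_self 0
  have e1 : Cell 3 g (D.X 1) h (D.X 1) := D.c3a_base hn.symm (D.hX 1) hm.symm (D.hX 1)
  have e2 : Cell 3 g (D.X 1) h h' :=
    Cell.trans_q e1 (D.c2bF hn.symm (by rw [D.hX]; exact ENat.natCast_ne_top _) (D.hX 1) hh' (by omega)).succ
      (D.php l1)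
  exact Cell.trans_p e2 (D.c2bF (D.hX 1) hg' hm.symm hh' (by omega)).succ (psi_le ⟨r', hr'⟩)

theorem c3bB : ∀ (d m n : ℕ) {g g' h h' : S}, D.lev g = n → D.lev g' = (n + d : ℕ) →
    D.lev h = m → D.lev h' = ⊤ → 1 ≤ n + m → Cell 3 g g' h h' := by
  intro d
  induction d with
  | zero =>
    intro m n g g' h h' hg hg' hh hh' hnm
    exact (D.c2a hg (by simpa using hg')).succ
  | succ d ih =>
    intro m n g g' h h' hg hg' hh hh' hnm
    refine Cell.trans_p (g'' := D.X (n + 1)) ?_ ?_ (D.psi_le_top hh')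
    · refine cut D.hl D.hr (fun a => ¬ (n : ℕ∞) < D.lev a) (fun b => D.lev b = ⊤)
        (D.php (by rw [hg, D.hX]; exact_mod_cast Nat.lt_succ_self n)) (D.psi_le_top hh') ?_
        (fun b _ => D.psi_le_top hh') ?_ ?_ (fun b hb => Cell.of_psi (D.psi_le_top hb)) ?_
      · intro a ha
        exact D.php (by rw [hg]; exact not_not.1 ha)
      · intro a ha
        by_cases ha2 : D.lev a < n
        · exact Cell.of_phi (D.php (by rw [hg]; exact ha2))
        · exact D.c2a hg (D.lev_eq_of ha2 ha)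
      · intro a ha
        rw [not_not] at ha
        by_cases ha2 : D.lev (D.X (n + 1)) < D.lev a
        · exact Cell.of_phi (D.php ha2)
        · exact D.c2a (D.lev_succ_of ha (D.hX _) ha2) (D.hX _)
      · intro b hb
        exact D.c2bF hg (by rw [D.hX]; exact ENat.natCast_ne_top _) hh hb hnm
    · exact ih m (n + 1) (D.hX _) (by rw [hg']; congr 1; omega) hh hh' (by omega)

/-- (3b) -/
theorem c3b {g g' h h' : S} (hg : D.lev g ≠ ⊤) (hg' : D.lev g' ≠ ⊤) : Cell 3 g g' h h' := by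
  by_cases hh : D.lev h = ⊤
  · exact Cell.of_psi (D.psi_le_top hh)
  by_cases hh' : D.lev h' = ⊤
  · obtain ⟨n, hn⟩ := ENat.ne_top_iff_exists.1 hg
    obtain ⟨k, hk⟩ := ENat.ne_top_iff_exists.1 hg'
    obtain ⟨m, hm⟩ := ENat.ne_top_iff_exists.1 hh
    by_cases hkn : k < n
    · exact Cell.of_phi (D.php (by rw [← hk, ← hn]; exact_mod_cast hkn))
    by_cases hnm : 1 ≤ n + m
    · exact D.c3bB (k - n) m n hn.symm (by rw [← hk]; congr 1; omega) hm.symm hh' hnm
    refine D.wlog_p fun ⟨r, hr⟩ => ?_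
    refine Cell.trans_q (h'' := D.X 1) (D.c3a hg hg' hh (by rw [D.hX]; exact ENat.natCast_ne_top _)) ?_
      (phi_le ⟨r, hr⟩)
    exact D.c3bB (k - n) 1 n hn.symm (by rw [← hk]; congr 1; omega) (D.hX 1) hh' (by omega)
  · exact D.c3a hg hg' hh hh'

theorem c3bB' : ∀ (d n m : ℕ) {g g' h h' : S}, D.lev h = m → D.lev h' = (m + d : ℕ) →
    D.lev g = n → D.lev g' = ⊤ → 1 ≤ n + m → Cell 3 g g' h h' := by
  intro d
  induction d with
  | zero =>
    intro n m g g' h h' hh hh' hg hg' hnm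
    exact (D.c2a' hh (by simpa using hh')).succ
  | succ d ih =>
    intro n m g g' h h' hh hh' hg hg' hnm
    refine Cell.trans_q (h'' := D.X (m + 1)) ?_ ?_ (D.phi_le_top hg')
    · refine cut D.hl D.hr (fun a => ¬ D.lev a = ⊤) (fun b => (m : ℕ∞) < D.lev b)
        (D.phi_le_top hg') (D.phq (by rw [hh, D.hX]; exact_mod_cast Nat.lt_succ_self m))
        (fun a ha => D.phi_le_top (not_not.1 ha)) ?_ ?_
        (fun a ha => Cell.of_phi (D.phi_le_top (not_not.1 ha))) ?_ ?_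
      · intro b hb
        exact D.phq (lt_of_le_of_lt (not_lt.1 hb) (by rw [D.hX]; exact_mod_cast Nat.lt_succ_self m))
      · intro a ha
        exact D.c2bF hg ha hh (by rw [D.hX]; exact ENat.natCast_ne_top _) hnm
      · intro b hb
        by_cases hb2 : D.lev (D.X (m + 1)) < D.lev b
        · exact Cell.of_psi (D.phq hb2)
        · exact D.c2a' (D.lev_succ_of hb (D.hX _) hb2) (D.hX _)
      · intro b hb
        by_cases hb2 : D.lev b < m
        · exact Cell.of_psi (D.phq (by rw [hh]; exact hb2))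
        · exact D.c2a' hh (D.lev_eq_of hb2 hb)
    · exact ih n (m + 1) (D.hX _) (by rw [hh']; congr 1; omega) hg hg' (by omega)

/-- (3b') -/
theorem c3b' {g g' h h' : S} (hh : D.lev h ≠ ⊤) (hh' : D.lev h' ≠ ⊤) : Cell 3 g g' h h' := by
  by_cases hg : D.lev g = ⊤
  · exact Cell.of_phi (D.phi_le_top hg)
  by_cases hg' : D.lev g' = ⊤
  · obtain ⟨n, hn⟩ := ENat.ne_top_iff_exists.1 hg
    obtain ⟨k, hk⟩ := ENat.ne_top_iff_exists.1 hh'
    obtain ⟨m, hm⟩ := ENat.ne_top_iff_exists.1 hh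
    by_cases hkm : k < m
    · exact Cell.of_psi (D.phq (by rw [← hk, ← hm]; exact_mod_cast hkm))
    by_cases hnm : 1 ≤ n + m
    · exact D.c3bB' (k - m) n m hm.symm (by rw [← hk]; congr 1; omega) hn.symm hg' hnm
    refine D.wlog_q fun ⟨r, hr⟩ => ?_
    refine Cell.trans_p (g'' := D.X 1) (D.c3a hg (by rw [D.hX]; exact ENat.natCast_ne_top _) hh hh') ?_
      (psi_le ⟨r, hr⟩)
    exact D.c3bB' (k - m) 1 m hm.symm (by rw [← hk]; congr 1; omega) (D.hX 1) hg' (by omega)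
  · exact D.c3a hg hg' hh hh'

/-- (4) -/
theorem c4 : Cell 4 (1 : S) 0 1 0 := by
  have h0 : D.lev (0 : S) = ⊤ := by
    by_contra h
    obtain ⟨n, hn⟩ := ENat.ne_top_iff_exists.1 h
    obtain ⟨r, hr⟩ := D.hp 0 (D.X (n + 1)) (by rw [← hn, D.hX]; exact_mod_cast Nat.lt_succ_self n)
    rw [mul_zero] at hr
    have := D.hX (n + 1)
    rw [hr, ← hn] at this
    exact absurd this (by exact_mod_cast (Nat.succ_ne_self n).symm)
  have h1 : D.lev (1 : S) ≠ ⊤ := by rw [D.hone]; simp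
  refine cut D.hl D.hr (fun a => ¬ D.lev a = ⊤) (fun b => D.lev b = ⊤)
    (phi_zero_le _) (psi_one_le _) (fun a ha => D.phi_le_top (not_not.1 ha))
    (fun b _ => D.psi_le_top h0) (fun a ha => D.c3b h1 ha)
    (fun a ha => Cell.of_phi (D.phi_le_top (not_not.1 ha)))
    (fun b hb => Cell.of_psi (D.psi_le_top hb)) (fun b hb => D.c3b' h1 hb)

theorem upper : MdimLT 4 (psi 1 : PPLat S) ⊤ := by
  have h := D.c4
  unfold Cell Le at h
  rw [phi_one, psi_zero, inf_top_eq, top_inf_eq, sup_eq_right.2 (phi_zero_le _)] at h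
  exact h

end LS

/-- twisted power series: formal sums `∑ cᵢ xⁱ` with `x q = σ(q) x`. -/
structure TPS (Q : Type) [Field Q] (σ : RingAut Q) where
  c : ℕ → Q

namespace TPS

open Finset.HasAntidiagonal (antidiagonal mem_antidiagonal)

variable {Q : Type} [Field Q] {σ : RingAut Q}

theorem ext' {f g : TPS Q σ} (h : ∀ n, f.c n = g.c n) : f = g := by
  cases f; cases g
  congr
  funext n
  exact h n

instance : Zero (TPS Q σ) := ⟨⟨fun _ => 0⟩⟩
instance : One (TPS Q σ) := ⟨⟨fun n => if n = 0 then 1 else 0⟩⟩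
instance : Add (TPS Q σ) := ⟨fun f g => ⟨fun n => f.c n + g.c n⟩⟩
instance : Neg (TPS Q σ) := ⟨fun f => ⟨fun n => - f.c n⟩⟩
instance : Mul (TPS Q σ) :=
  ⟨fun f g => ⟨fun n => ∑ p ∈ antidiagonal n, f.c p.1 * (σ ^ p.1) (g.c p.2)⟩⟩

theorem zero_c (n : ℕ) : (0 : TPS Q σ).c n = 0 := rfl
theorem one_c (n : ℕ) : (1 : TPS Q σ).c n = if n = 0 then 1 else 0 := rfl
theorem add_c (f g : TPS Q σ) (n : ℕ) : (f + g).c n = f.c n + g.c n := rfl
theorem neg_c (f : TPS Q σ) (n : ℕ) : (-f).c n = -f.c n := rfl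
theorem mul_c (f g : TPS Q σ) (n : ℕ) :
    (f * g).c n = ∑ p ∈ antidiagonal n, f.c p.1 * (σ ^ p.1) (g.c p.2) := rfl

theorem pow_add_apply (i j : ℕ) (c : Q) : (σ ^ (i + j)) c = (σ ^ i) ((σ ^ j) c) := by
  rw [pow_add, RingAut.mul_apply]

instance : Ring (TPS Q σ) where
  add_assoc f g h := ext' fun n => by simp only [add_c]; ring
  zero_add f := ext' fun n => by simp only [add_c, zero_c]; ring
  add_zero f := ext' fun n => by simp only [add_c, zero_c]; ring
  add_comm f g := ext' fun n => by simp only [add_c]; ring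
  neg_add_cancel f := ext' fun n => by simp only [add_c, neg_c, zero_c]; ring
  nsmul := nsmulRec
  zsmul := zsmulRec
  left_distrib f g h := ext' fun n => by
    simp only [mul_c, add_c, map_add, mul_add, Finset.sum_add_distrib]
  right_distrib f g h := ext' fun n => by
    simp only [mul_c, add_c, add_mul, Finset.sum_add_distrib]
  zero_mul f := ext' fun n => by simp [mul_c, zero_c]
  mul_zero f := ext' fun n => by simp [mul_c, zero_c]
  mul_assoc f g h := ext' fun n => by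
      simp only [mul_c, Finset.sum_mul, Finset.mul_sum, map_sum, map_mul, Finset.sum_sigma']
      apply Finset.sum_nbij' (fun ⟨⟨_i, j⟩, ⟨k, l⟩⟩ ↦ ⟨(k, l + j), (l, j)⟩)
        (fun ⟨⟨i, _j⟩, ⟨k, l⟩⟩ ↦ ⟨(i + k, l), (i, k)⟩)
      · rintro ⟨⟨i, j⟩, ⟨k, l⟩⟩ h
        simp at h ⊢
        omega
      · rintro ⟨⟨i, j⟩, ⟨k, l⟩⟩ h
        simp at h ⊢
        omega
      · rintro ⟨⟨i, j⟩, ⟨k, l⟩⟩ h
        simp at h ⊢
        omega
      · rintro ⟨⟨i, j⟩, ⟨k, l⟩⟩ h
        simp at h ⊢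
        omega
      · rintro ⟨⟨i, j⟩, ⟨k, l⟩⟩ h
        simp only [Finset.mem_sigma, mem_antidiagonal] at h
        obtain ⟨h1, h2⟩ := h
        subst h2
        simp only
        rw [pow_add_apply, mul_assoc]
  one_mul f := ext' fun n => by
      rw [mul_c, Finset.sum_eq_single (0, n)]
      · simp [one_c]
      · rintro ⟨i, j⟩ hb hne
        have : i ≠ 0 := by
          rintro rfl
          simp at hb
          exact hne (by rw [hb])
        simp [one_c, this]
      · intro h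
        simp at h
  mul_one f := ext' fun n => by
      rw [mul_c, Finset.sum_eq_single (n, 0)]
      · simp [one_c]
      · rintro ⟨i, j⟩ hb hne
        have : j ≠ 0 := by
          rintro rfl
          simp at hb
          exact hne (by rw [hb])
        simp [one_c, this]
      · intro h
        simp at h

theorem sub_c (f g : TPS Q σ) (n : ℕ) : (f - g).c n = f.c n - g.c n := by
  rw [sub_eq_add_neg, add_c, neg_c, sub_eq_add_neg]

/-- left division recursion -/
noncomputable def divL (σ : RingAut Q) (a b : ℕ → Q) (n : ℕ) : ℕ → Q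
  | i => (b (n + i) - ∑ k : Fin i, divL σ a b n k * (σ ^ (k : ℕ)) (a (n + i - k))) / (σ ^ i) (a n)
decreasing_by exact k.2

noncomputable def divR (σ : RingAut Q) (a b : ℕ → Q) (n : ℕ) : ℕ → Q
  | i => (σ ^ n)⁻¹ ((b (n + i) - ∑ k : Fin i, a (n + i - k) * (σ ^ (n + i - k : ℕ)) (divR σ a b n k)) / a n)
decreasing_by exact k.2

theorem divL_eq (σ : RingAut Q) (a b : ℕ → Q) (n i : ℕ) : divL σ a b n i =
    (b (n + i) - ∑ k : Fin i, divL σ a b n k * (σ ^ (k : ℕ)) (a (n + i - k))) / (σ ^ i) (a n) := by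
  rw [divL]

theorem divR_eq (σ : RingAut Q) (a b : ℕ → Q) (n i : ℕ) : divR σ a b n i =
    (σ ^ n)⁻¹ ((b (n + i) - ∑ k : Fin i, a (n + i - k) * (σ ^ (n + i - k : ℕ)) (divR σ a b n k)) / a n) := by
  rw [divR]

/-- `b = f a` when `a` has level `n` and `b` has level at least `n`. -/
theorem exists_left {a b : TPS Q σ} {n : ℕ} (ha : a.c n ≠ 0) (ha' : ∀ m < n, a.c m = 0)
    (hb : ∀ m < n, b.c m = 0) : ∃ f : TPS Q σ, b = f * a ∧ f.c 0 = b.c n / a.c n := by
  refine ⟨⟨divL σ a.c b.c n⟩, ?_, ?_⟩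
  · refine ext' fun m => ?_
    rw [mul_c]
    by_cases hm : m < n
    · rw [hb m hm]
      symm
      apply Finset.sum_eq_zero
      rintro ⟨i, j⟩ hij
      rw [mem_antidiagonal] at hij
      simp only at hij ⊢
      rw [ha' j (by omega), map_zero, mul_zero]
    · obtain ⟨i, rfl⟩ := Nat.exists_eq_add_of_le (not_lt.1 hm)
      rw [Finset.Nat.sum_antidiagonal_eq_sum_range_succ_mk]
      have h1 : ∑ k ∈ Finset.range (n + i).succ, divL σ a.c b.c n k * (σ ^ k) (a.c (n + i - k))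
          = ∑ k ∈ Finset.range (i + 1), divL σ a.c b.c n k * (σ ^ k) (a.c (n + i - k)) := by
        symm
        apply Finset.sum_subset
        · intro k hk
          simp at hk ⊢
          omega
        · intro k hk hk'
          simp at hk hk'
          rw [ha' (n + i - k) (by omega), map_zero, mul_zero]
      simp only
      rw [h1, Finset.sum_range_succ, show n + i - i = n by omega]
      have h3 : (σ ^ i) (a.c n) ≠ 0 := by
        intro h
        exact ha ((map_eq_zero_iff _ (σ ^ i).injective).1 h)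
      rw [divL_eq σ a.c b.c n i, div_mul_cancel₀ _ h3, Finset.sum_range]
      ring
  · simp only
    rw [divL_eq]
    simp

/-- `b = a f` when `a` has level `n` and `b` has level at least `n`. -/
theorem exists_right {a b : TPS Q σ} {n : ℕ} (ha : a.c n ≠ 0) (ha' : ∀ m < n, a.c m = 0)
    (hb : ∀ m < n, b.c m = 0) :
    ∃ f : TPS Q σ, b = a * f ∧ f.c 0 = (σ ^ n)⁻¹ (b.c n / a.c n) := by
  refine ⟨⟨divR σ a.c b.c n⟩, ?_, ?_⟩
  · refine ext' fun m => ?_
    rw [mul_c]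
    by_cases hm : m < n
    · rw [hb m hm]
      symm
      apply Finset.sum_eq_zero
      rintro ⟨i, j⟩ hij
      rw [mem_antidiagonal] at hij
      simp only at hij ⊢
      rw [ha' i (by omega), zero_mul]
    · obtain ⟨i, rfl⟩ := Nat.exists_eq_add_of_le (not_lt.1 hm)
      rw [← Finset.Nat.sum_antidiagonal_swap, Finset.Nat.sum_antidiagonal_eq_sum_range_succ_mk]
      have h1 : ∑ k ∈ Finset.range (n + i).succ, a.c (n + i - k) * (σ ^ (n + i - k)) (divR σ a.c b.c n k)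
          = ∑ k ∈ Finset.range (i + 1), a.c (n + i - k) * (σ ^ (n + i - k)) (divR σ a.c b.c n k) := by
        symm
        apply Finset.sum_subset
        · intro k hk
          simp at hk ⊢
          omega
        · intro k hk hk'
          simp at hk hk'
          rw [ha' (n + i - k) (by omega), zero_mul]
      simp only [Prod.swap]
      rw [h1, Finset.sum_range_succ, show n + i - i = n by omega]
      rw [divR_eq σ a.c b.c n i, ← RingAut.mul_apply, mul_inv_cancel, RingAut.one_apply, mul_div_cancel₀ _ ha, Finset.sum_range]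
      ring
  · simp only
    rw [divR_eq]
    simp

/-- leading coefficient of a product -/
theorem mul_lead {a b : TPS Q σ} {n m : ℕ} (ha' : ∀ k < n, a.c k = 0) (hb' : ∀ k < m, b.c k = 0) :
    (a * b).c (n + m) = a.c n * (σ ^ n) (b.c m) := by
  rw [mul_c, Finset.sum_eq_single (n, m)]
  · rintro ⟨i, j⟩ hb hne
    rw [mem_antidiagonal] at hb
    simp only at hb ⊢
    by_cases h : i < n
    · rw [ha' i h, zero_mul]
    · by_cases h2 : j < m
      · rw [hb' j h2, map_zero, mul_zero]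
      · exfalso
        apply hne
        have : i = n := by omega
        have : j = m := by omega
        subst_vars
        rfl
  · intro h
    simp at h

theorem mul_low {a b : TPS Q σ} {n m : ℕ} (ha' : ∀ k < n, a.c k = 0) (hb' : ∀ k < m, b.c k = 0) :
    ∀ k < n + m, (a * b).c k = 0 := by
  intro k hk
  rw [mul_c]
  apply Finset.sum_eq_zero
  rintro ⟨i, j⟩ hij
  rw [mem_antidiagonal] at hij
  simp only at hij ⊢
  by_cases h : i < n
  · rw [ha' i h, zero_mul]
  · rw [hb' j (by omega), map_zero, mul_zero]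

end TPS

/-- field data: a discrete valuation subring `V` of `Q` with uniformiser `t` which is independent
from all its translates under positive powers of `σ` -/
structure FD (Q : Type) [Field Q] where
  σ : RingAut Q
  V : Subring Q
  t : Q
  ht : t ∈ V
  ht0 : t ≠ 0
  htinv : t⁻¹ ∉ V
  V1 : ∀ q : Q, q ≠ 0 → ∃ i : ℤ, ∃ u ∈ V, u⁻¹ ∈ V ∧ q = t ^ i * u
  V3 : ∀ N : ℕ, 1 ≤ N → ∀ α β γ : Q, α ≠ 0 → β ≠ 0 → ∃ v ∈ V, ∃ w ∈ V, γ = v * α + β * (σ ^ N) w

theorem mem_of_nonneg {Q : Type} [Field Q] (V : Subring Q) {t u : Q} (ht : t ∈ V) (hu : u ∈ V)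
    {i : ℤ} (hi : 0 ≤ i) : t ^ i * u ∈ V := by
  obtain ⟨n, rfl⟩ := Int.eq_ofNat_of_zero_le hi
  rw [zpow_natCast]
  exact V.mul_mem (V.pow_mem ht n) hu

/-- the approximation property -/
theorem approx {Q : Type} [Field Q] [CharZero Q] (σ : RingAut Q) (V : Subring Q) (t : Q)
    (ht : t ∈ V) (ht0 : t ≠ 0)
    (hnat : ∀ n : ℕ, (n : Q)⁻¹ ∈ V)
    (V1 : ∀ q : Q, q ≠ 0 → ∃ i : ℤ, ∃ u ∈ V, u⁻¹ ∈ V ∧ q = t ^ i * u)
    (hσ : σ t = t + 1) :
    ∀ N : ℕ, 1 ≤ N → ∀ α β γ : Q, α ≠ 0 → β ≠ 0 →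
      ∃ v ∈ V, ∃ w ∈ V, γ = v * α + β * (σ ^ N) w := by
  intro N hN α β γ hα hβ
  by_cases hγ : γ = 0
  · exact ⟨0, V.zero_mem, 0, V.zero_mem, by simp [hγ]⟩
  have hσN : ∀ n : ℕ, (σ ^ n) t = t + n := by
    intro n
    induction n with
    | zero => simp
    | succ n ih =>
      rw [pow_succ', RingAut.mul_apply, ih, map_add, hσ, map_natCast]
      push_cast
      ring
  have hN0 : (N : Q) ≠ 0 := by exact_mod_cast (by omega : N ≠ 0)
  obtain ⟨i, u, hu, hu', hα'⟩ := V1 α hα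
  have hβ2 : (σ ^ N)⁻¹ β ≠ 0 := by
    intro h
    exact hβ ((map_eq_zero_iff _ ((σ ^ N)⁻¹).injective).1 h)
  obtain ⟨j, u2, hu2, hu2', hβ'⟩ := V1 _ hβ2
  have hβ'' : β = (σ ^ N) (t ^ j * u2) := by
    rw [← hβ', ← RingAut.mul_apply, mul_inv_cancel, RingAut.one_apply]
  obtain ⟨k, u3, hu3, hu3', hγ'⟩ := V1 γ hγ
  have hγ2 : (σ ^ N)⁻¹ γ ≠ 0 := by
    intro h
    exact hγ ((map_eq_zero_iff _ ((σ ^ N)⁻¹).injective).1 h)
  obtain ⟨l, u4, hu4, hu4', hγ3⟩ := V1 _ hγ2
  have hγ'' : γ = (σ ^ N) (t ^ l * u4) := by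
    rw [← hγ3, ← RingAut.mul_apply, mul_inv_cancel, RingAut.one_apply]
  -- the two submodules
  have hmemA : ∀ m : ℤ, i ≤ m → ∀ v ∈ V, ∃ v' ∈ V, t ^ m * v = v' * α := by
    intro m hm v hv
    refine ⟨t ^ (m - i) * (u⁻¹ * v), mem_of_nonneg V ht (V.mul_mem hu' hv) (by omega), ?_⟩
    rw [hα', zpow_sub₀ ht0]
    have h1 : t ^ i ≠ 0 := zpow_ne_zero _ ht0
    have h2 : u ≠ 0 := by
      rintro rfl
      apply hα
      rw [hα', mul_zero]
    field_simp
  have hmemB : ∀ m : ℤ, j ≤ m → ∀ v ∈ V, ∃ v' ∈ V, (σ ^ N) (t ^ m * v) = β * (σ ^ N) v' := by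
    intro m hm v hv
    refine ⟨t ^ (m - j) * (u2⁻¹ * v), mem_of_nonneg V ht (V.mul_mem hu2' hv) (by omega), ?_⟩
    rw [hβ'', ← map_mul, zpow_sub₀ ht0]
    congr 1
    have h1 : t ^ j ≠ 0 := zpow_ne_zero _ ht0
    have h2 : u2 ≠ 0 := by
      rintro rfl
      apply hβ2
      rw [hβ', mul_zero]
    field_simp
  -- one as a combination
  let tN : Q := t + N
  have htN : tN = (σ ^ N) t := (hσN N).symm
  have htNV : tN ∈ V := V.add_mem ht (natCast_mem V N)
  have htV : ∃ s ∈ V, t = (σ ^ N) s := by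
    refine ⟨t - N, V.sub_mem ht (natCast_mem V N), ?_⟩
    rw [map_sub, hσN, map_natCast]
    ring
  obtain ⟨s, hs, hts⟩ := htV
  let M : ℕ := (i - k).toNat + (j - l).toNat
  have hone : (1 : Q) = ∑ p ∈ Finset.range (M + 1), tN ^ p * (-t) ^ (M - p) * (M.choose p : Q) * ((N : Q)⁻¹) ^ M := by
    rw [← Finset.sum_mul, ← add_pow, ← mul_pow]
    have : (tN + -t) * (N : Q)⁻¹ = 1 := by
      simp only [tN]
      field_simp
      ring
    rw [this, one_pow]
  have hterm : ∀ p ∈ Finset.range (M + 1), ∃ v ∈ V, ∃ w ∈ V,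
      (tN ^ p * (-t) ^ (M - p) * (M.choose p : Q) * ((N : Q)⁻¹) ^ M) * γ
        = v * α + β * (σ ^ N) w := by
    intro p hp
    rw [Finset.mem_range] at hp
    by_cases hcase : (i - k).toNat ≤ M - p
    · have hm : i ≤ k + ((M - p : ℕ) : ℤ) := by omega
      have hv : (tN ^ p * (-1) ^ (M - p) * (M.choose p : Q) * ((N : Q)⁻¹) ^ M) * u3 ∈ V := by
        refine V.mul_mem (V.mul_mem (V.mul_mem (V.mul_mem (V.pow_mem htNV _) (V.pow_mem (V.neg_mem V.one_mem) _)) (natCast_mem V _)) (V.pow_mem (hnat N) _)) hu3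
      obtain ⟨v', hv', e⟩ := hmemA _ hm _ hv
      refine ⟨v', hv', 0, V.zero_mem, ?_⟩
      rw [map_zero, mul_zero, add_zero, ← e, hγ', zpow_add₀ ht0, zpow_natCast, neg_pow t]
      ring
    · have hm : j ≤ l + (p : ℤ) := by omega
      have hv : (s ^ (M - p) * (-1) ^ (M - p) * (M.choose p : Q) * ((N : Q)⁻¹) ^ M) * u4 ∈ V := by
        refine V.mul_mem (V.mul_mem (V.mul_mem (V.mul_mem (V.pow_mem hs _) (V.pow_mem (V.neg_mem V.one_mem) _)) (natCast_mem V _)) (V.pow_mem (hnat N) _)) hu4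
      obtain ⟨v', hv', e⟩ := hmemB _ hm _ hv
      refine ⟨0, V.zero_mem, v', hv', ?_⟩
      rw [zero_mul, zero_add, ← e, zpow_add₀ ht0, zpow_natCast]
      have h5 : (-t) ^ (M - p) = (-1) ^ (M - p) * ((σ ^ N) s) ^ (M - p) := by
        rw [neg_pow t, ← hts]
      rw [h5, htN]
      conv_lhs => rw [hγ'']
      have hinv : (σ ^ N) ((N : Q)⁻¹) = (N : Q)⁻¹ := by rw [map_inv₀, map_natCast]
      simp only [map_mul, map_pow, map_neg, map_one, map_natCast, hinv]
      ring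
  choose! v hv w hw hvw using hterm
  refine ⟨∑ p ∈ Finset.range (M + 1), v p, Subring.sum_mem V hv,
    ∑ p ∈ Finset.range (M + 1), w p, Subring.sum_mem V hw, ?_⟩
  calc γ = 1 * γ := (one_mul γ).symm
    _ = ∑ p ∈ Finset.range (M + 1), (v p * α + β * (σ ^ N) (w p)) := by
        rw [hone, Finset.sum_mul]
        exact Finset.sum_congr rfl hvw
    _ = _ := by
        rw [Finset.sum_add_distrib, Finset.sum_mul, map_sum, Finset.mul_sum]

theorem exists_FD : Nonempty (FD (RatFunc ℚ)) := by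
  let v := (Polynomial.idealX ℚ).valuation (RatFunc ℚ)
  have hX : v RatFunc.X = WithZero.exp (-1 : ℤ) := Polynomial.valuation_X_eq_neg_one ℚ
  let V : Subring (RatFunc ℚ) := v.integer
  have hmem : ∀ q, q ∈ V ↔ v q ≤ 1 := fun q => Iff.rfl
  let σ : RingAut (RatFunc ℚ) :=
    IsFractionRing.ringEquivOfRingEquiv (Polynomial.algEquivAevalXAddC (1 : ℚ)).toRingEquiv
  have hσ : σ RatFunc.X = RatFunc.X + 1 := by
    have h1 : (RatFunc.X : RatFunc ℚ) = algebraMap (Polynomial ℚ) (RatFunc ℚ) Polynomial.X :=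
      RatFunc.algebraMap_X.symm
    simp only [σ]
    rw [h1, IsFractionRing.ringEquivOfRingEquiv_algebraMap]
    have h2 : (Polynomial.algEquivAevalXAddC (1 : ℚ)).toRingEquiv Polynomial.X = Polynomial.X + 1 := by
      change (Polynomial.algEquivAevalXAddC (1 : ℚ)) Polynomial.X = Polynomial.X + 1
      simp
    rw [h2, map_add, map_one]
  have ht0 : (RatFunc.X : RatFunc ℚ) ≠ 0 := RatFunc.X_ne_zero
  have ht : (RatFunc.X : RatFunc ℚ) ∈ V := by
    rw [hmem, hX, ← WithZero.exp_zero, WithZero.exp_le_exp]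
    norm_num
  have V1 : ∀ q : RatFunc ℚ, q ≠ 0 → ∃ i : ℤ, ∃ u ∈ V, u⁻¹ ∈ V ∧ q = RatFunc.X ^ i * u := by
    intro q hq
    have hvq : v q ≠ 0 := (Valuation.ne_zero_iff v).2 hq
    obtain ⟨k, hk⟩ : ∃ k : ℤ, v q = WithZero.exp k := ⟨WithZero.log (v q), (WithZero.exp_log hvq).symm⟩
    have hu : v (RatFunc.X ^ k * q) = 1 := by
      rw [map_mul, map_zpow₀, hX, hk, ← WithZero.exp_zsmul, ← WithZero.exp_add]
      simp
    refine ⟨-k, RatFunc.X ^ k * q, ?_, ?_, ?_⟩
    · rw [hmem, hu]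
    · rw [hmem, map_inv₀, hu, inv_one]
    · rw [← mul_assoc, ← zpow_add₀ ht0]
      simp
  have hnat : ∀ n : ℕ, ((n : RatFunc ℚ))⁻¹ ∈ V := by
    intro n
    rw [hmem]
    have : ((n : RatFunc ℚ))⁻¹ = algebraMap (Polynomial ℚ) (RatFunc ℚ) (Polynomial.C ((n : ℚ)⁻¹)) := by
      rw [RatFunc.algebraMap_C, map_inv₀, map_natCast]
    rw [this]
    exact (Polynomial.idealX ℚ).valuation_le_one _
  have hinv : (RatFunc.X : RatFunc ℚ)⁻¹ ∉ V := by
    rw [hmem, map_inv₀, hX, ← WithZero.exp_neg, ← WithZero.exp_zero, WithZero.exp_le_exp]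
    norm_num
  exact ⟨⟨σ, V, RatFunc.X, ht, ht0, hinv, V1, approx σ V _ ht ht0 hnat V1 hσ⟩⟩



section ringS

variable {Q : Type} [Field Q] {σ : RingAut Q}

open Classical in
/-- the level (order of vanishing) of a twisted power series -/
noncomputable def TPS.lev (f : TPS Q σ) : ℕ∞ :=
  if h : ∃ n, f.c n ≠ 0 then (Nat.find h : ℕ∞) else ⊤

theorem TPS.lev_coe {f : TPS Q σ} {n : ℕ} :
    f.lev = n ↔ f.c n ≠ 0 ∧ ∀ m < n, f.c m = 0 := by
  classical
  unfold TPS.lev
  by_cases h : ∃ n, f.c n ≠ 0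
  · rw [dif_pos h]
    constructor
    · intro h1
      have h2 : Nat.find h = n := by exact_mod_cast h1
      rw [← h2]
      exact ⟨Nat.find_spec h, fun m hm => not_not.1 (Nat.find_min h hm)⟩
    · rintro ⟨h1, h2⟩
      have : Nat.find h = n := (Nat.find_eq_iff h).2 ⟨h1, fun m hm => not_not.2 (h2 m hm)⟩
      rw [this]
  · rw [dif_neg h]
    constructor
    · intro h1
      exact absurd h1.symm (ENat.natCast_ne_top n)
    · rintro ⟨h1, -⟩
      exact absurd ⟨n, h1⟩ h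

theorem TPS.lev_top {f : TPS Q σ} : f.lev = ⊤ ↔ f = 0 := by
  classical
  unfold TPS.lev
  by_cases h : ∃ n, f.c n ≠ 0
  · rw [dif_pos h]
    constructor
    · intro h1
      exact absurd h1 (ENat.natCast_ne_top _)
    · rintro rfl
      obtain ⟨n, hn⟩ := h
      exact absurd rfl hn
  · rw [dif_neg h]
    push Not at h
    exact ⟨fun _ => TPS.ext' h, fun _ => rfl⟩

theorem TPS.lev_lt {f g : TPS Q σ} (h : f.lev < g.lev) :
    ∃ n, f.c n ≠ 0 ∧ (∀ m < n, f.c m = 0) ∧ ∀ m ≤ n, g.c m = 0 := by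
  obtain ⟨n, hn⟩ := ENat.ne_top_iff_exists.1 (ne_top_of_lt h)
  obtain ⟨h1, h2⟩ := TPS.lev_coe.1 hn.symm
  refine ⟨n, h1, h2, ?_⟩
  by_cases hg : g.lev = ⊤
  · rw [TPS.lev_top.1 hg]
    intro m _
    rfl
  · obtain ⟨k, hk⟩ := ENat.ne_top_iff_exists.1 hg
    obtain ⟨h3, h4⟩ := TPS.lev_coe.1 hk.symm
    rw [← hn, ← hk] at h
    have : n < k := by exact_mod_cast h
    intro m hm
    exact h4 m (by omega)

theorem TPS.lev_mul {f g : TPS Q σ} : (f * g).lev = f.lev + g.lev := by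
  by_cases hf : f.lev = ⊤
  · rw [hf, TPS.lev_top.1 hf, zero_mul, top_add]
    exact TPS.lev_top.2 rfl
  by_cases hg : g.lev = ⊤
  · rw [hg, TPS.lev_top.1 hg, mul_zero, add_top]
    exact TPS.lev_top.2 rfl
  obtain ⟨n, hn⟩ := ENat.ne_top_iff_exists.1 hf
  obtain ⟨m, hm⟩ := ENat.ne_top_iff_exists.1 hg
  obtain ⟨h1, h2⟩ := TPS.lev_coe.1 hn.symm
  obtain ⟨h3, h4⟩ := TPS.lev_coe.1 hm.symm
  rw [← hn, ← hm]
  have : (f * g).lev = (n + m : ℕ) := by
    rw [TPS.lev_coe]
    refine ⟨?_, TPS.mul_low h2 h4⟩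
    rw [TPS.mul_lead h2 h4]
    refine mul_ne_zero h1 ?_
    intro h
    exact h3 ((map_eq_zero_iff _ (σ ^ n).injective).1 h)
  rw [this]
  push_cast
  rfl

/-- constant series -/
def TPS.C (q : Q) : TPS Q σ := ⟨fun n => if n = 0 then q else 0⟩

/-- the power `x ^ n` -/
def TPS.X (n : ℕ) : TPS Q σ := ⟨fun m => if m = n then 1 else 0⟩

/-- the ring `V + x Q[[x; σ]]` -/
def SR (D : FD Q) : Subring (TPS Q D.σ) where
  carrier := {f | f.c 0 ∈ D.V}
  mul_mem' := by
    intro f g hf hg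
    have := TPS.mul_lead (a := f) (b := g) (n := 0) (m := 0) (by simp) (by simp)
    simp only [add_zero, pow_zero, RingAut.one_apply] at this
    change (f * g).c 0 ∈ D.V
    rw [this]
    exact D.V.mul_mem hf hg
  one_mem' := by
    change (1 : TPS Q D.σ).c 0 ∈ D.V
    rw [TPS.one_c, if_pos rfl]
    exact D.V.one_mem
  add_mem' := by
    intro f g hf hg
    exact D.V.add_mem hf hg
  zero_mem' := D.V.zero_mem
  neg_mem' := by
    intro f hf
    exact D.V.neg_mem hf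

theorem mem_SR {D : FD Q} {f : TPS Q D.σ} : f ∈ SR D ↔ f.c 0 ∈ D.V := Iff.rfl

variable (D : FD Q)

theorem val_cases (q : Q) : q ∈ D.V ∨ (q ≠ 0 ∧ q⁻¹ ∈ D.V) := by
  by_cases hq : q = 0
  · left; rw [hq]; exact D.V.zero_mem
  obtain ⟨i, u, hu, hu', rfl⟩ := D.V1 q hq
  by_cases hi : 0 ≤ i
  · left; exact mem_of_nonneg D.V D.ht hu hi
  · right
    refine ⟨hq, ?_⟩
    rw [mul_inv, ← zpow_neg]
    exact mem_of_nonneg D.V D.ht hu' (by omega)

theorem unit_or (q : Q) (hq : q ∈ D.V) : (q ≠ 0 ∧ q⁻¹ ∈ D.V) ∨ q / D.t ∈ D.V := by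
  by_cases hq0 : q = 0
  · right; rw [hq0, zero_div]; exact D.V.zero_mem
  obtain ⟨i, u, hu, hu', rfl⟩ := D.V1 q hq0
  rcases lt_trichotomy i 0 with hi | hi | hi
  · exfalso
    apply D.htinv
    have : D.t⁻¹ = (D.t ^ i * u) * (D.t ^ (-i - 1) * u⁻¹) := by
      have h1 : u ≠ 0 := by
        rintro rfl
        exact hq0 (mul_zero _)
      have h2 : D.t ^ (-i - 1) = (D.t ^ i)⁻¹ * D.t⁻¹ := by
        rw [zpow_sub₀ D.ht0, zpow_neg, zpow_one, div_eq_mul_inv]
      rw [h2]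
      have h3 : D.t ^ i ≠ 0 := zpow_ne_zero _ D.ht0
      field_simp
    rw [this]
    exact D.V.mul_mem hq (mem_of_nonneg D.V D.ht hu' (by omega))
  · left
    subst hi
    refine ⟨hq0, ?_⟩
    simpa using hu'
  · right
    have : D.t ^ i * u / D.t = D.t ^ (i - 1) * u := by
      rw [zpow_sub₀ D.ht0, zpow_one]
      ring
    rw [this]
    exact mem_of_nonneg D.V D.ht hu (by omega)

theorem pow_mem_of (q : Q) (hq : q ∈ D.V) (hq0 : q ≠ 0) :
    ∃ i : ℕ, ∃ u ∈ D.V, q = D.t ^ i * u ∧ u⁻¹ ∈ D.V := by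
  obtain ⟨i, u, hu, hu', rfl⟩ := D.V1 q hq0
  rcases lt_or_ge i 0 with hi | hi
  · exfalso
    apply D.htinv
    have : D.t⁻¹ = (D.t ^ i * u) * (D.t ^ (-i - 1) * u⁻¹) := by
      have h1 : u ≠ 0 := by
        rintro rfl
        exact hq0 (mul_zero _)
      have h2 : D.t ^ (-i - 1) = (D.t ^ i)⁻¹ * D.t⁻¹ := by
        rw [zpow_sub₀ D.ht0, zpow_neg, zpow_one, div_eq_mul_inv]
      rw [h2]
      have h3 : D.t ^ i ≠ 0 := zpow_ne_zero _ D.ht0
      field_simp
    rw [this]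
    exact D.V.mul_mem hq (mem_of_nonneg D.V D.ht hu' (by omega))
  · obtain ⟨n, rfl⟩ := Int.eq_ofNat_of_zero_le hi
    exact ⟨n, u, hu, by rw [zpow_natCast], hu'⟩

/-- left divisibility criterion in `SR D` -/
theorem SR_left {a b : SR D} {n : ℕ} (ha : (a : TPS Q D.σ).c n ≠ 0)
    (ha' : ∀ m < n, (a : TPS Q D.σ).c m = 0) (hb : ∀ m < n, (b : TPS Q D.σ).c m = 0)
    (h : (b : TPS Q D.σ).c n / (a : TPS Q D.σ).c n ∈ D.V) : ∃ f : SR D, b = f * a := by
  obtain ⟨f, hf, hf0⟩ := TPS.exists_left ha ha' hb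
  refine ⟨⟨f, ?_⟩, Subtype.ext hf⟩
  rw [mem_SR, hf0]
  exact h

theorem SR_right {a b : SR D} {n : ℕ} (ha : (a : TPS Q D.σ).c n ≠ 0)
    (ha' : ∀ m < n, (a : TPS Q D.σ).c m = 0) (hb : ∀ m < n, (b : TPS Q D.σ).c m = 0)
    (h : (D.σ ^ n)⁻¹ ((b : TPS Q D.σ).c n / (a : TPS Q D.σ).c n) ∈ D.V) :
    ∃ f : SR D, b = a * f := by
  obtain ⟨f, hf, hf0⟩ := TPS.exists_right ha ha' hb
  refine ⟨⟨f, ?_⟩, Subtype.ext hf⟩
  rw [mem_SR, hf0]
  exact h

theorem SR_exists_lev {a : SR D} (h : a ≠ 0) :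
    ∃ n, (a : TPS Q D.σ).c n ≠ 0 ∧ ∀ m < n, (a : TPS Q D.σ).c m = 0 := by
  have h1 : (a : TPS Q D.σ).lev ≠ ⊤ := by
    rw [Ne, TPS.lev_top]
    intro h2
    exact h (Subtype.ext h2)
  obtain ⟨n, hn⟩ := ENat.ne_top_iff_exists.1 h1
  exact ⟨n, TPS.lev_coe.1 hn.symm⟩

theorem SR_hl (a b : SR D) : (∃ t, a = t * b) ∨ ∃ t, b = t * a := by
  by_cases ha : a = 0
  · left; exact ⟨0, by rw [ha, zero_mul]⟩
  by_cases hb : b = 0
  · right; exact ⟨0, by rw [hb, zero_mul]⟩
  obtain ⟨n, hn, hn'⟩ := SR_exists_lev D ha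
  obtain ⟨m, hm, hm'⟩ := SR_exists_lev D hb
  rcases lt_trichotomy n m with h | h | h
  · right
    refine SR_left D hn hn' (fun k hk => hm' k (by omega)) ?_
    rw [hm' n h, zero_div]
    exact D.V.zero_mem
  · subst h
    rcases val_cases D ((b : TPS Q D.σ).c n / (a : TPS Q D.σ).c n) with h | ⟨-, h⟩
    · right; exact SR_left D hn hn' hm' h
    · left
      rw [inv_div] at h
      exact SR_left D hm hm' hn' h
  · left
    refine SR_left D hm hm' (fun k hk => hn' k (by omega)) ?_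
    rw [hn' m h, zero_div]
    exact D.V.zero_mem

theorem SR_hr (a b : SR D) : (∃ t, a = b * t) ∨ ∃ t, b = a * t := by
  by_cases ha : a = 0
  · left; exact ⟨0, by rw [ha, mul_zero]⟩
  by_cases hb : b = 0
  · right; exact ⟨0, by rw [hb, mul_zero]⟩
  obtain ⟨n, hn, hn'⟩ := SR_exists_lev D ha
  obtain ⟨m, hm, hm'⟩ := SR_exists_lev D hb
  rcases lt_trichotomy n m with h | h | h
  · right
    refine SR_right D hn hn' (fun k hk => hm' k (by omega)) ?_
    rw [hm' n h, zero_div, map_zero]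
    exact D.V.zero_mem
  · subst h
    rcases val_cases D ((D.σ ^ n)⁻¹ ((b : TPS Q D.σ).c n / (a : TPS Q D.σ).c n)) with h | ⟨-, h⟩
    · right; exact SR_right D hn hn' hm' h
    · left
      rw [← map_inv₀, inv_div] at h
      exact SR_right D hm hm' hn' h
  · left
    refine SR_right D hm hm' (fun k hk => hn' k (by omega)) ?_
    rw [hn' m h, zero_div, map_zero]
    exact D.V.zero_mem

/-- the uniformiser as an element of the ring -/
def Tt : SR D := ⟨TPS.C D.t, by rw [mem_SR]; simpa [TPS.C] using D.ht⟩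

/-- constants -/
def Cc (q : Q) (hq : q ∈ D.V) : SR D := ⟨TPS.C q, by rw [mem_SR]; simpa [TPS.C] using hq⟩

/-- powers of `x` -/
def Xx (n : ℕ) : SR D := ⟨TPS.X n, by
  rw [mem_SR]
  simp only [TPS.X]
  split_ifs
  · exact D.V.one_mem
  · exact D.V.zero_mem⟩

theorem C_mul_c (q : Q) (f : TPS Q D.σ) (n : ℕ) : (TPS.C q * f).c n = q * f.c n := by
  rw [TPS.mul_c, Finset.sum_eq_single (0, n)]
  · simp [TPS.C]
  · rintro ⟨i, j⟩ hb hne
    have : i ≠ 0 := by
      rintro rfl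
      simp at hb
      exact hne (by rw [hb])
    simp [TPS.C, this]
  · intro h
    simp at h

theorem mul_C_c (q : Q) (f : TPS Q D.σ) (n : ℕ) : (f * TPS.C q).c n = f.c n * (D.σ ^ n) q := by
  rw [TPS.mul_c, Finset.sum_eq_single (n, 0)]
  · simp [TPS.C]
  · rintro ⟨i, j⟩ hb hne
    have : j ≠ 0 := by
      rintro rfl
      simp at hb
      exact hne (by rw [hb])
    simp [TPS.C, this]
  · intro h
    simp at h

theorem SR_coe_mul (a b : SR D) : ((a * b : SR D) : TPS Q D.σ) = (a : TPS Q D.σ) * b := rfl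

theorem sigma_ne {n : ℕ} {q : Q} (h : q ≠ 0) : (D.σ ^ n) q ≠ 0 := fun h' =>
  h ((map_eq_zero_iff _ (D.σ ^ n).injective).1 h')

theorem Tpow_mul_c (i : ℕ) (f : SR D) (n : ℕ) :
    ((Tt D ^ i * f : SR D) : TPS Q D.σ).c n = D.t ^ i * (f : TPS Q D.σ).c n := by
  induction i with
  | zero => simp
  | succ i ih =>
    rw [pow_succ', mul_assoc, SR_coe_mul]
    change (TPS.C D.t * _).c n = _
    rw [C_mul_c, ih]
    ring

theorem mul_Tpow_c (i : ℕ) (f : SR D) (n : ℕ) :
    ((f * Tt D ^ i : SR D) : TPS Q D.σ).c n = (f : TPS Q D.σ).c n * (D.σ ^ n) (D.t ^ i) := by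
  induction i with
  | zero => simp
  | succ i ih =>
    rw [pow_succ, ← mul_assoc, SR_coe_mul]
    change (_ * TPS.C D.t).c n = _
    rw [mul_C_c, ih, pow_succ, map_mul]
    ring

/-- the level system of `V + x Q[[x; σ]]` -/
noncomputable def theLS : LS (SR D) where
  lev a := (a : TPS Q D.σ).lev
  t := Tt D
  X := Xx D
  hl := SR_hl D
  hr := SR_hr D
  hX n := by
    rw [TPS.lev_coe]
    constructor
    · simp [Xx, TPS.X]
    · intro m hm
      simp only [Xx, TPS.X]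
      rw [if_neg (by omega)]
  htop a h := Subtype.ext (TPS.lev_top.1 h)
  hone := by
    have : ((1 : SR D) : TPS Q D.σ).lev = ((0 : ℕ) : ℕ∞) := by
      rw [TPS.lev_coe]
      refine ⟨?_, by simp⟩
      change (1 : TPS Q D.σ).c 0 ≠ 0
      rw [TPS.one_c, if_pos rfl]
      exact one_ne_zero
    exact this
  hp a b h := by
    obtain ⟨n, h1, h2, h3⟩ := TPS.lev_lt h
    refine SR_left D h1 h2 (fun m hm => h3 m hm.le) ?_
    rw [h3 n le_rfl, zero_div]
    exact D.V.zero_mem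
  hq a b h := by
    obtain ⟨n, h1, h2, h3⟩ := TPS.lev_lt h
    refine SR_right D h1 h2 (fun m hm => h3 m hm.le) ?_
    rw [h3 n le_rfl, zero_div, map_zero]
    exact D.V.zero_mem
  adjp a g r h := by
    subst h
    rcases unit_or D _ r.2 with ⟨h0, h1⟩ | h1
    · left
      obtain ⟨s, hs⟩ := SR_left D (a := r) (b := 1) (n := 0) h0 (by simp) (by simp) (by
        change (1 : TPS Q D.σ).c 0 / _ ∈ _
        rw [TPS.one_c, if_pos rfl, one_div]
        exact h1)
      exact ⟨s, by rw [← mul_assoc, ← hs, one_mul]⟩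
    · right
      obtain ⟨s, hs⟩ := SR_left D (a := Tt D) (b := r) (n := 0) (by simpa [Tt, TPS.C] using D.ht0)
        (by simp) (by simp) (by simpa [Tt, TPS.C] using h1)
      exact ⟨s, by rw [← mul_assoc, ← hs]⟩
  adjq b h r hb := by
    subst hb
    rcases unit_or D _ r.2 with ⟨h0, h1⟩ | h1
    · left
      obtain ⟨s, hs⟩ := SR_right D (a := r) (b := 1) (n := 0) h0 (by simp) (by simp) (by
        change (D.σ ^ 0)⁻¹ ((1 : TPS Q D.σ).c 0 / _) ∈ _
        rw [TPS.one_c, if_pos rfl, one_div]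
        simpa using h1)
      exact ⟨s, by rw [mul_assoc, ← hs, mul_one]⟩
    · right
      obtain ⟨s, hs⟩ := SR_right D (a := Tt D) (b := r) (n := 0) (by simpa [Tt, TPS.C] using D.ht0)
        (by simp) (by simp) (by simpa [Tt, TPS.C] using h1)
      exact ⟨s, by rw [mul_assoc, ← hs]⟩
  sp g g' r h1 h2 h3 := by
    obtain ⟨n, hn⟩ := ENat.ne_top_iff_exists.1 h2
    obtain ⟨g1, g2⟩ := TPS.lev_coe.1 hn.symm
    obtain ⟨g3, g4⟩ := TPS.lev_coe.1 (h1.symm.trans hn.symm)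
    have hlead : (g' : TPS Q D.σ).c n = (r : TPS Q D.σ).c 0 * (g : TPS Q D.σ).c n := by
      rw [h3, SR_coe_mul]
      have := TPS.mul_lead (a := (r : TPS Q D.σ)) (b := (g : TPS Q D.σ)) (n := 0) (m := n) (by simp) g2
      simpa using this
    have hr0 : (r : TPS Q D.σ).c 0 ≠ 0 := by
      intro h
      rw [h, zero_mul] at hlead
      exact g3 hlead
    obtain ⟨i, u, hu, hru, hu'⟩ := pow_mem_of D _ r.2 hr0
    have hu0 : u ≠ 0 := by
      rintro rfl
      exact hr0 (by rw [hru, mul_zero])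
    refine ⟨i, SR_left D g3 g4 ?_ ?_⟩
    · intro m hm
      rw [Tpow_mul_c, g2 m hm, mul_zero]
    · rw [Tpow_mul_c, hlead, hru]
      have : D.t ^ i * (g : TPS Q D.σ).c n / (D.t ^ i * u * (g : TPS Q D.σ).c n) = u⁻¹ := by
        have := pow_ne_zero i D.ht0
        field_simp
      rw [this]
      exact hu'
  sq h h' r h1 h2 h3 := by
    obtain ⟨n, hn⟩ := ENat.ne_top_iff_exists.1 h2
    obtain ⟨g1, g2⟩ := TPS.lev_coe.1 hn.symm
    obtain ⟨g3, g4⟩ := TPS.lev_coe.1 (h1.symm.trans hn.symm)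
    have hlead : (h' : TPS Q D.σ).c n = (h : TPS Q D.σ).c n * (D.σ ^ n) ((r : TPS Q D.σ).c 0) := by
      rw [h3, SR_coe_mul]
      have := TPS.mul_lead (b := (r : TPS Q D.σ)) (a := (h : TPS Q D.σ)) (m := 0) (n := n) g2 (by simp)
      simpa using this
    have hr0 : (r : TPS Q D.σ).c 0 ≠ 0 := by
      intro h
      rw [h, map_zero, mul_zero] at hlead
      exact g3 hlead
    obtain ⟨i, u, hu, hru, hu'⟩ := pow_mem_of D _ r.2 hr0
    have hu0 : u ≠ 0 := by
      rintro rfl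
      exact hr0 (by rw [hru, mul_zero])
    refine ⟨i, SR_right D g3 g4 ?_ ?_⟩
    · intro m hm
      rw [mul_Tpow_c, g2 m hm, zero_mul]
    · rw [mul_Tpow_c, hlead, hru, map_mul]
      have e1 : (h : TPS Q D.σ).c n * (D.σ ^ n) (D.t ^ i) /
          ((h : TPS Q D.σ).c n * ((D.σ ^ n) (D.t ^ i) * (D.σ ^ n) u)) = (D.σ ^ n) (u⁻¹) := by
        have h5 := sigma_ne D (n := n) (pow_ne_zero i D.ht0)
        have h6 := sigma_ne D (n := n) hu0
        rw [map_inv₀]
        field_simp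
      rw [e1, ← RingAut.mul_apply, inv_mul_cancel, RingAut.one_apply]
      exact hu'
  levtp g := by
    rw [SR_coe_mul, TPS.lev_mul]
    have : ((Tt D : SR D) : TPS Q D.σ).lev = ((0 : ℕ) : ℕ∞) := by
      rw [TPS.lev_coe]
      exact ⟨by simpa [Tt, TPS.C] using D.ht0, by simp⟩
    rw [this]
    simp
  levtq g := by
    rw [SR_coe_mul, TPS.lev_mul]
    have : ((Tt D : SR D) : TPS Q D.σ).lev = ((0 : ℕ) : ℕ∞) := by
      rw [TPS.lev_coe]
      exact ⟨by simpa [Tt, TPS.C] using D.ht0, by simp⟩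
    rw [this]
    simp
  K g g' h h' h1 h2 h3 h4 h5 := by
    obtain ⟨n, hn⟩ := ENat.ne_top_iff_exists.1 h3
    obtain ⟨m, hm⟩ := ENat.ne_top_iff_exists.1 h4
    obtain ⟨g1, g2⟩ := TPS.lev_coe.1 hn.symm
    obtain ⟨g3, g4⟩ := TPS.lev_coe.1 (h1.symm.trans hn.symm)
    obtain ⟨k1, k2⟩ := TPS.lev_coe.1 hm.symm
    obtain ⟨k3, k4⟩ := TPS.lev_coe.1 (h2.symm.trans hm.symm)
    have hnm : 1 ≤ n + m := by
      rw [← hn, ← hm] at h5
      exact_mod_cast h5
    have e1 := TPS.mul_lead (a := (g : TPS Q D.σ)) (b := (h : TPS Q D.σ)) g2 k2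
    have e2 := TPS.mul_lead (a := (g' : TPS Q D.σ)) (b := (h : TPS Q D.σ)) g4 k2
    have e3 := TPS.mul_lead (a := (g : TPS Q D.σ)) (b := (h' : TPS Q D.σ)) g2 k4
    have l1 := TPS.mul_low (a := (g : TPS Q D.σ)) (b := (h : TPS Q D.σ)) g2 k2
    have l2 := TPS.mul_low (a := (g' : TPS Q D.σ)) (b := (h : TPS Q D.σ)) g4 k2
    have l3 := TPS.mul_low (a := (g : TPS Q D.σ)) (b := (h' : TPS Q D.σ)) g2 k4
    have hα : ((g' : TPS Q D.σ) * h).c (n + m) ≠ 0 := by
      rw [e2]; exact mul_ne_zero g3 (sigma_ne D k1)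
    have hβ : ((g : TPS Q D.σ) * h').c (n + m) ≠ 0 := by
      rw [e3]; exact mul_ne_zero g1 (sigma_ne D k3)
    obtain ⟨v, hv, w, hw, hvw⟩ := D.V3 (n + m) hnm _ _ (((g : TPS Q D.σ) * h).c (n + m)) hα hβ
    obtain ⟨s, hs⟩ := SR_left D (a := g' * h) (b := g * h - g * h' * Cc D w hw) (n := n + m)
      hα l2 (by
        intro k hk
        change (((g : TPS Q D.σ) * (h : TPS Q D.σ)) - (g : TPS Q D.σ) * (h' : TPS Q D.σ) * TPS.C w).c k = 0
        rw [TPS.sub_c, mul_C_c, l1 k hk, l3 k hk, zero_mul, sub_zero]) (by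
        change (((g : TPS Q D.σ) * (h : TPS Q D.σ)) - (g : TPS Q D.σ) * (h' : TPS Q D.σ) * TPS.C w).c (n + m) /
          ((g' : TPS Q D.σ) * (h : TPS Q D.σ)).c (n + m) ∈ D.V
        rw [TPS.sub_c, mul_C_c, hvw, add_sub_cancel_right, mul_div_cancel_right₀ _ hα]
        exact hv)
    refine ⟨s, Cc D w hw, ?_⟩
    rw [mul_assoc s, ← hs]
    abel

theorem KG_upper : MdimLT 4 (psi 1 : PPLat (SR D)) ⊤ := (theLS D).upper

end ringS


section lower

variable {L : Type*} [Lattice L]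

/-- prime filters of a lattice -/
def IsPr (P : L → Prop) : Prop :=
  (∀ F G, F ≤ G → P F → P G) ∧ (∀ F G, P (F ⊔ G) → P F ∨ P G) ∧ (∀ F G, P F → P G → P (F ⊓ G))

/-- prime filters that are accumulation points of order `n` -/
def Acc : ℕ → (L → Prop) → Prop
  | 0, P => IsPr P
  | n + 1, P => IsPr P ∧ ∀ A B, A ≤ B → P B → ¬ P A → ∃ P' P'' x, Acc n P' ∧ Acc n P'' ∧
      P' B ∧ ¬ P' A ∧ P'' B ∧ ¬ P'' A ∧ P' x ∧ ¬ P'' x

theorem Acc.isPr {n : ℕ} {P : L → Prop} (h : Acc n P) : IsPr P := by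
  cases n with
  | zero => exact h
  | succ n => exact h.1

theorem lower_aux : ∀ (n : ℕ) {P : L → Prop}, Acc n P → ∀ {A B : L}, A ≤ B → P B → ¬ P A →
    ¬ MdimLT n A B := by
  intro n
  induction n with
  | zero =>
    intro P _ A B _ hB hA h
    have : A = B := h
    exact hA (this ▸ hB)
  | succ n ih =>
    intro P hP A B hAB hB hA h
    obtain ⟨k, c, h0, hk, hc⟩ := h
    obtain ⟨i, hi, h1, h2⟩ : ∃ i < k, P (c (i + 1)) ∧ ¬ P (c i) := by
      by_contra hcon
      push Not at hcon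
      have : ∀ j ≤ k, ¬ P (c j) := by
        intro j hj
        induction j with
        | zero => rw [h0]; exact hA
        | succ j ih' => exact fun h => ih' (by omega) (hcon j (by omega) h)
      exact this k le_rfl (by rw [hk]; exact hB)
    obtain ⟨hle, hx⟩ := hc i hi
    obtain ⟨P', P'', x, a1, a2, b1, b2, b3, b4, b5, b6⟩ := hP.2 _ _ hle h1 h2
    have pr1 := a1.isPr
    have pr2 := a2.isPr
    have hx1 : P' ((x ⊓ c (i + 1)) ⊔ c i) :=
      pr1.1 _ _ le_sup_left (pr1.2.2 _ _ b5 b1)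
    have hx2 : ¬ P'' ((x ⊓ c (i + 1)) ⊔ c i) := by
      intro h
      rcases pr2.2.1 _ _ h with h | h
      · exact b6 (pr2.1 _ _ inf_le_left h)
      · exact b4 h
    rcases hx ((x ⊓ c (i + 1)) ⊔ c i) le_sup_right (sup_le inf_le_right hle) with h | h
    · exact ih a1 le_sup_right hx1 b2 h
    · exact ih a2 (sup_le inf_le_right hle) b3 hx2 h

end lower

section homs

variable {R : Type u} [Ring R]

theorem hom_mem (F : PPLat R) {M N : ModuleCat.{u} Rᵐᵒᵖ} (f : M →ₗ[Rᵐᵒᵖ] N) {x : M}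
    (hx : x ∈ F.1 M) : f x ∈ F.1 N := by
  obtain ⟨φ, hφ⟩ := F.2
  rw [hφ] at hx ⊢
  obtain ⟨y, hy⟩ := hx
  refine ⟨fun i => f (y i), fun j => ?_⟩
  have := congrArg f (hy j)
  rw [map_add, map_sum, map_zero, map_smul] at this
  simpa only [map_smul] using this

/-- the property that the class of `a` in `R ⧸ K` satisfies a pp formula -/
def Pq (K : Submodule Rᵐᵒᵖ R) (a : R) (F : PPLat R) : Prop :=
  (Submodule.Quotient.mk a : R ⧸ K) ∈ F.1 (ModuleCat.of Rᵐᵒᵖ (R ⧸ K))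

theorem Pq_left {K K' : Submodule Rᵐᵒᵖ R} {a s : R} (hK : ∀ x ∈ K, s * x ∈ K') {F : PPLat R}
    (h : Pq K a F) : Pq K' (s * a) F := by
  let f : R →ₗ[Rᵐᵒᵖ] R :=
    { toFun := fun x => s * x
      map_add' := fun x y => mul_add s x y
      map_smul' := fun r x => by simp [mul_assoc] }
  exact hom_mem F (M := ModuleCat.of Rᵐᵒᵖ (R ⧸ K)) (N := ModuleCat.of Rᵐᵒᵖ (R ⧸ K'))
    (Submodule.mapQ K K' f hK) h

theorem Pq_isPr (hl : ∀ a b : R, (∃ t, a = t * b) ∨ ∃ t, b = t * a)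
    {K : Submodule Rᵐᵒᵖ R} (hK : ∀ s, ∀ x ∈ K, s * x ∈ K) (a : R) : IsPr (Pq K a) := by
  refine ⟨fun F G h hF => h _ hF, ?_, fun F G hF hG => mem_inf'.2 ⟨hF, hG⟩⟩
  intro F G h
  obtain ⟨y, hy, z, hz, hyz⟩ := mem_sup'.1 h
  obtain ⟨y, rfl⟩ := Submodule.Quotient.mk_surjective K y
  obtain ⟨z, rfl⟩ := Submodule.Quotient.mk_surjective K z
  rcases hl y z with ⟨t, rfl⟩ | ⟨t, rfl⟩
  · right
    have : Pq K (t * z) G := Pq_left (hK t) hz
    have h2 := AddSubgroup.add_mem _ this hz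
    rw [hyz] at h2
    exact h2
  · left
    have : Pq K (t * y) F := Pq_left (hK t) hy
    have h2 := AddSubgroup.add_mem _ hy this
    rw [hyz] at h2
    exact h2

theorem Pq_phi {K : Submodule Rᵐᵒᵖ R} {a r : R} : Pq K a (phi r) ↔ ∃ y, a - y * r ∈ K := by
  unfold Pq
  rw [mem_phi]
  constructor
  · rintro ⟨y, hy⟩
    obtain ⟨y, rfl⟩ := Submodule.Quotient.mk_surjective K y
    refine ⟨y, ?_⟩
    rw [← Submodule.Quotient.eq, ← hy]
    rfl
  · rintro ⟨y, hy⟩
    refine ⟨Submodule.Quotient.mk y, ?_⟩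
    rw [← Submodule.Quotient.eq] at hy
    rw [hy]
    rfl

theorem Pq_psi {K : Submodule Rᵐᵒᵖ R} {a s : R} : Pq K a (psi s) ↔ a * s ∈ K := by
  unfold Pq
  rw [mem_psi]
  change (Submodule.Quotient.mk (op s • a) : R ⧸ K) = 0 ↔ _
  rw [Submodule.Quotient.mk_eq_zero]
  rfl

end homs

section lowerS

variable {Q : Type} [Field Q] (D : FD Q)

/-- the two-sided ideal of elements of level at least `k` -/
def KK (k : ℕ) : Submodule (SR D)ᵐᵒᵖ (SR D) where
  carrier := {f | ∀ m < k, (f : TPS Q D.σ).c m = 0}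
  add_mem' := by
    intro f g hf hg m hm
    change (f : TPS Q D.σ).c m + (g : TPS Q D.σ).c m = 0
    rw [hf m hm, hg m hm, add_zero]
  zero_mem' := by
    intro m _
    rfl
  smul_mem' := by
    intro r f hf m hm
    exact TPS.mul_low (n := k) (m := 0) hf (by simp) m (by omega)

theorem KK_left (k : ℕ) : ∀ s : SR D, ∀ x ∈ KK D k, s * x ∈ KK D k := by
  intro s x hx m hm
  exact TPS.mul_low (a := (s : TPS Q D.σ)) (n := 0) (m := k) (by simp) hx m (by omega)

theorem mem_KK_iff {k : ℕ} {f : SR D} : f ∈ KK D k ↔ (k : ℕ∞) ≤ (theLS D).lev f := by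
  change _ ↔ (k : ℕ∞) ≤ (f : TPS Q D.σ).lev
  by_cases h : (f : TPS Q D.σ).lev = ⊤
  · rw [h]
    simp only [le_top, iff_true]
    rw [TPS.lev_top] at h
    intro m _
    rw [h]
    rfl
  · obtain ⟨n, hn⟩ := ENat.ne_top_iff_exists.1 h
    obtain ⟨h1, h2⟩ := TPS.lev_coe.1 hn.symm
    rw [← hn]
    constructor
    · intro hf
      by_contra hcon
      rw [not_le] at hcon
      have : n < k := by exact_mod_cast hcon
      exact h1 (hf n this)
    · intro hk m hm
      have : k ≤ n := by exact_mod_cast hk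
      exact h2 m (by omega)

theorem lev_mul' (a b : SR D) : (theLS D).lev (a * b) = (theLS D).lev a + (theLS D).lev b :=
  TPS.lev_mul

/-- the element `t^v x^n` -/
noncomputable def aa (n v : ℕ) : SR D := Tt D ^ v * Xx D n

theorem lev_aa (n v : ℕ) : (theLS D).lev (aa D n v) = n := by
  have := (theLS D).levtpow (Xx D n) v
  exact this.trans ((theLS D).hX n)

theorem bot_left : ∀ s : SR D, ∀ x ∈ (⊥ : Submodule (SR D)ᵐᵒᵖ (SR D)),
    s * x ∈ (⊥ : Submodule (SR D)ᵐᵒᵖ (SR D)) := by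
  intro s x hx
  rw [Submodule.mem_bot] at hx ⊢
  rw [hx, mul_zero]

theorem acc0 (n v k : ℕ) : Acc 0 (Pq (KK D k) (aa D n v)) :=
  Pq_isPr (SR_hl D) (KK_left D k) _

theorem P2_P3 {a : SR D} {k : ℕ} {F : PPLat (SR D)} (h : Pq ⊥ a F) : Pq (KK D k) a F := by
  have := Pq_left (K := ⊥) (K' := KK D k) (s := 1) (a := a) (F := F) (by
    intro x hx
    rw [Submodule.mem_bot] at hx
    rw [hx, mul_zero]
    exact Submodule.zero_mem _) h
  rwa [one_mul] at this

theorem not_P2 {n v : ℕ} {A : PPLat (SR D)} (h : ¬ Pq ⊥ (aa D n v) A) :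
    ∃ k₀, n ≤ k₀ ∧ ∀ k, k₀ ≤ k → ¬ Pq (KK D k) (aa D n v) A := by
  obtain ⟨L, rfl⟩ := exists_meet (SR_hl D) (SR_hr D) A
  have h1 : ∃ c ∈ L, ¬ Pq ⊥ (aa D n v) (phi c.1 ⊔ psi c.2) := by
    by_contra hcon
    push Not at hcon
    apply h
    clear h
    induction L with
    | nil => exact mem_top'
    | cons d L ih =>
      exact mem_inf'.2 ⟨hcon d (by simp), ih (fun c hc => hcon c (by simp [hc]))⟩
  obtain ⟨c, hc, hP⟩ := h1
  have hphi : ¬ Pq ⊥ (aa D n v) (phi c.1) := fun h =>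
    hP ((Pq_isPr (SR_hl D) (bot_left D) _).1 _ _ le_sup_left h)
  have hpsi : ¬ Pq ⊥ (aa D n v) (psi c.2) := fun h =>
    hP ((Pq_isPr (SR_hl D) (bot_left D) _).1 _ _ le_sup_right h)
  rw [Pq_psi, Submodule.mem_bot] at hpsi
  have hlev : (theLS D).lev (aa D n v * c.2) ≠ ⊤ := fun h => hpsi ((theLS D).htop _ h)
  obtain ⟨N, hN⟩ := ENat.ne_top_iff_exists.1 hlev
  refine ⟨max (n + 1) (N + 1), by omega, fun k hk hcon => ?_⟩
  have hcon' : Pq (KK D k) (aa D n v) (phi c.1 ⊔ psi c.2) := meet_le hc _ hcon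
  rcases (acc0 D n v k).2.1 _ _ hcon' with h | h
  · rw [Pq_phi] at h
    obtain ⟨y, hy⟩ := h
    apply hphi
    rw [Pq_phi]
    set e := aa D n v - y * c.1 with he
    have he2 : (k : ℕ∞) ≤ (theLS D).lev e := (mem_KK_iff D).1 hy
    have hr : (theLS D).lev c.1 < (theLS D).lev e := by
      refine lt_of_lt_of_le ?_ he2
      by_contra hcon2
      rw [not_lt] at hcon2
      have h3 : y * c.1 ∈ KK D k := by
        rw [mem_KK_iff, lev_mul']
        exact hcon2.trans le_add_self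
      have h4 : aa D n v ∈ KK D k := by
        have : aa D n v = e + y * c.1 := by rw [he]; abel
        rw [this]
        exact Submodule.add_mem _ hy h3
      rw [mem_KK_iff, lev_aa] at h4
      have : k ≤ n := by exact_mod_cast h4
      omega
    obtain ⟨r, hr⟩ := (theLS D).hp _ _ hr
    refine ⟨y + r, ?_⟩
    rw [Submodule.mem_bot, add_mul, ← hr, he]
    abel
  · rw [Pq_psi, mem_KK_iff, ← hN] at h
    have : k ≤ N := by exact_mod_cast h
    omega

theorem acc1 (n v : ℕ) : Acc 1 (Pq ⊥ (aa D n v)) := by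
  refine ⟨Pq_isPr (SR_hl D) (bot_left D) _, ?_⟩
  intro A B _ hB hA
  obtain ⟨k₀, hn, hk₀⟩ := not_P2 D hA
  have hlev : (theLS D).lev (aa D n v * Xx D (k₀ - n)) = k₀ := by
    rw [lev_mul', lev_aa]
    have : (theLS D).lev (Xx D (k₀ - n)) = ((k₀ - n : ℕ) : ℕ∞) := (theLS D).hX _
    rw [this]
    have h2 : n + (k₀ - n) = k₀ := by omega
    exact_mod_cast h2
  refine ⟨Pq (KK D k₀) (aa D n v), Pq (KK D (k₀ + 1)) (aa D n v), psi (Xx D (k₀ - n)),
    acc0 D n v _, acc0 D n v _, P2_P3 D hB, hk₀ _ le_rfl, P2_P3 D hB, hk₀ _ (by omega), ?_, ?_⟩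
  · rw [Pq_psi, mem_KK_iff, hlev]
  · rw [Pq_psi, mem_KK_iff, hlev, not_le]
    exact_mod_cast Nat.lt_succ_self k₀

theorem P2_mono {n v w : ℕ} (hvw : v ≤ w) {F : PPLat (SR D)} (h : Pq ⊥ (aa D n v) F) :
    Pq ⊥ (aa D n w) F := by
  obtain ⟨i, rfl⟩ := Nat.exists_eq_add_of_le hvw
  have : aa D n (v + i) = Tt D ^ i * aa D n v := by
    unfold aa
    rw [← mul_assoc, ← pow_add, add_comm]
  rw [this]
  exact Pq_left (bot_left D _) h

theorem acc2 (n : ℕ) : Acc 2 (fun F : PPLat (SR D) => ∃ v, Pq ⊥ (aa D n v) F) := by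
  refine ⟨⟨?_, ?_, ?_⟩, ?_⟩
  · rintro F G h ⟨v, hv⟩
    exact ⟨v, (acc1 D n v).isPr.1 _ _ h hv⟩
  · rintro F G ⟨v, hv⟩
    rcases (acc1 D n v).isPr.2.1 _ _ hv with h | h
    · exact Or.inl ⟨v, h⟩
    · exact Or.inr ⟨v, h⟩
  · rintro F G ⟨v, hv⟩ ⟨w, hw⟩
    exact ⟨max v w, (acc1 D n _).isPr.2.2 _ _ (P2_mono D (le_max_left v w) hv)
      (P2_mono D (le_max_right v w) hw)⟩
  · intro A B _ hB hA
    obtain ⟨v, hv⟩ := hB
    refine ⟨Pq ⊥ (aa D n (v + 1)), Pq ⊥ (aa D n v), phi (aa D n (v + 1)), acc1 D n _, acc1 D n _,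
      P2_mono D (by omega) hv, fun h => hA ⟨_, h⟩, hv, fun h => hA ⟨_, h⟩, ?_, ?_⟩
    · rw [Pq_phi]
      exact ⟨1, by simp⟩
    · rw [Pq_phi]
      rintro ⟨y, hy⟩
      rw [Submodule.mem_bot, sub_eq_zero] at hy
      have h1 : ((aa D n v : SR D) : TPS Q D.σ).c n = D.t ^ v := by
        unfold aa
        rw [Tpow_mul_c]
        simp [Xx, TPS.X]
      have h2 : ((aa D n (v + 1) : SR D) : TPS Q D.σ).c n = D.t ^ (v + 1) := by
        unfold aa
        rw [Tpow_mul_c]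
        simp [Xx, TPS.X]
      have h3 := TPS.mul_lead (a := (y : TPS Q D.σ)) (b := ((aa D n (v + 1) : SR D) : TPS Q D.σ))
        (n := 0) (m := n) (by simp) (TPS.lev_coe.1 (lev_aa D n (v + 1))).2
      have h4 : ((aa D n v : SR D) : TPS Q D.σ).c n = ((y * aa D n (v + 1) : SR D) : TPS Q D.σ).c n := by
        rw [← hy]
      rw [h1, SR_coe_mul] at h4
      simp only [zero_add, pow_zero, RingAut.one_apply] at h3
      rw [h3, h2] at h4
      apply D.htinv
      have h5 : (y : TPS Q D.σ).c 0 = D.t⁻¹ := by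
        have h6 : D.t ^ v ≠ 0 := pow_ne_zero _ D.ht0
        rw [pow_succ] at h4
        have h7 : D.t ^ v * ((y : TPS Q D.σ).c 0 * D.t) = D.t ^ v * 1 := by
          linear_combination (-1 : Q) * h4
        exact eq_inv_of_mul_eq_one_left (mul_left_cancel₀ h6 h7)
      rw [← h5]
      exact y.2

theorem acc3 : Acc 3 (fun F : PPLat (SR D) => ∃ n, ∃ v, Pq ⊥ (aa D n v) F) := by
  have mono1 : ∀ {n : ℕ} {F : PPLat (SR D)}, (∃ v, Pq ⊥ (aa D n v) F) →
      ∃ v, Pq ⊥ (aa D (n + 1) v) F := by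
    rintro n F ⟨v, hv⟩
    obtain ⟨r, hr⟩ := (theLS D).hp (aa D n v) (aa D (n + 1) 0) (by
      rw [lev_aa, lev_aa]
      exact_mod_cast Nat.lt_succ_self n)
    refine ⟨0, ?_⟩
    rw [hr]
    exact Pq_left (bot_left D _) hv
  have mono : ∀ {n m : ℕ} {F : PPLat (SR D)}, n ≤ m → (∃ v, Pq ⊥ (aa D n v) F) →
      ∃ v, Pq ⊥ (aa D m v) F := by
    intro n m F hnm h
    induction m, hnm using Nat.le_induction with
    | base => exact h
    | succ m _ ih => exact mono1 ih
  refine ⟨⟨?_, ?_, ?_⟩, ?_⟩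
  · rintro F G h ⟨n, hn⟩
    exact ⟨n, (acc2 D n).isPr.1 _ _ h hn⟩
  · rintro F G ⟨n, hn⟩
    rcases (acc2 D n).isPr.2.1 _ _ hn with h | h
    · exact Or.inl ⟨n, h⟩
    · exact Or.inr ⟨n, h⟩
  · rintro F G ⟨n, hn⟩ ⟨m, hm⟩
    exact ⟨max n m, (acc2 D _).isPr.2.2 _ _ (mono (le_max_left n m) hn)
      (mono (le_max_right n m) hm)⟩
  · intro A B _ hB hA
    obtain ⟨n, hn⟩ := hB
    refine ⟨_, _, phi (aa D (n + 1) 0), acc2 D (n + 1), acc2 D n,
      mono1 hn, fun h => hA ⟨_, h⟩, hn, fun h => hA ⟨_, h⟩, ?_, ?_⟩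
    · exact ⟨0, by rw [Pq_phi]; exact ⟨1, by simp⟩⟩
    · rintro ⟨v, hv⟩
      rw [Pq_phi] at hv
      obtain ⟨y, hy⟩ := hv
      rw [Submodule.mem_bot, sub_eq_zero] at hy
      have := congrArg (theLS D).lev hy
      rw [lev_mul', lev_aa, lev_aa] at this
      have h2 : ((n + 1 : ℕ) : ℕ∞) ≤ (n : ℕ∞) := by
        rw [this]
        exact le_add_self
      have : n + 1 ≤ n := by exact_mod_cast h2
      omega

theorem KG_lower : ¬ MdimLT 3 (psi 1 : PPLat (SR D)) ⊤ := by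
  refine lower_aux 3 (acc3 D) le_top ⟨0, 0, mem_top'⟩ ?_
  rintro ⟨n, v, h⟩
  rw [Pq_psi, mul_one, Submodule.mem_bot] at h
  have := lev_aa D n v
  rw [h] at this
  have h0 : (theLS D).lev (0 : SR D) = ⊤ := TPS.lev_top.2 rfl
  rw [h0] at this
  exact ENat.natCast_ne_top n this.symm

end lowerS


section dev

variable {L : Type*} [PartialOrder L]

theorem dev_refl : ∀ (n : ℕ) (a : L), DevLT n a a := by
  intro n
  induction n with
  | zero => intro a; rfl
  | succ n ih =>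
    intro a c _ hc
    have : ∀ i, c i = a := fun i => le_antisymm (hc i).2 (hc i).1
    exact ⟨0, fun i _ => by rw [this, this]; exact ih a⟩

theorem dev_sub {n : ℕ} {a b a' b' : L} (h : DevLT n a b) (h1 : a ≤ a') (h2 : a' ≤ b')
    (h3 : b' ≤ b) : DevLT n a' b' := by
  cases n with
  | zero =>
    have h : a = b := h
    subst h
    exact (le_antisymm h2 (h3.trans h1) : a' = b')
  | succ n =>
    intro c hc hc'
    exact h c hc (fun i => ⟨h1.trans (hc' i).1, (hc' i).2.trans h3⟩)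

theorem dev_trans {n : ℕ} {a b c : L} (tot : ∀ x y : L, x ≤ y ∨ y ≤ x) (h1 : DevLT n a b)
    (h2 : DevLT n b c) : DevLT n a c := by
  cases n with
  | zero => exact Eq.trans h1 h2
  | succ n =>
    intro d hd hd'
    by_cases h : ∀ i, b ≤ d i
    · exact h2 d hd (fun i => ⟨h i, (hd' i).2⟩)
    · push Not at h
      obtain ⟨i₀, hi₀⟩ := h
      have hle : d i₀ ≤ b := (tot b (d i₀)).resolve_left hi₀
      obtain ⟨N, hN⟩ := h1 (fun i => d (i + i₀)) (fun i j hij => hd (by omega))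
        (fun i => ⟨(hd' _).1, (hd (by omega : i₀ ≤ i + i₀)).trans hle⟩)
      refine ⟨N + i₀, fun i hi => ?_⟩
      have := hN (i - i₀) (by omega)
      have e1 : i - i₀ + 1 + i₀ = i + 1 := by omega
      have e2 : i - i₀ + i₀ = i := by omega
      simp only [e1, e2] at this
      exact this

end dev

section krull

variable {Q : Type} [Field Q] (D : FD Q)

/-- principal right ideals -/
def rI (a : SR D) : Submodule (SR D)ᵐᵒᵖ (SR D) := Submodule.span (SR D)ᵐᵒᵖ {a}

theorem mem_rI {a f : SR D} : f ∈ rI D a ↔ ∃ s, f = a * s := by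
  unfold rI
  rw [Submodule.mem_span_singleton]
  constructor
  · rintro ⟨s, rfl⟩
    exact ⟨s.unop, rfl⟩
  · rintro ⟨s, rfl⟩
    exact ⟨op s, rfl⟩

theorem rI_le {a : SR D} {I : Submodule (SR D)ᵐᵒᵖ (SR D)} (h : a ∈ I) : rI D a ≤ I := by
  unfold rI
  rw [Submodule.span_le]
  simpa using h

theorem rI_tot (I J : Submodule (SR D)ᵐᵒᵖ (SR D)) : I ≤ J ∨ J ≤ I := by
  by_contra h
  rw [not_or] at h
  obtain ⟨h1, h2⟩ := h
  rw [SetLike.not_le_iff_exists] at h1 h2
  obtain ⟨a, ha, ha'⟩ := h1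
  obtain ⟨b, hb, hb'⟩ := h2
  rcases SR_hr D a b with h | h
  · exact ha' (rI_le D hb ((mem_rI D).2 h))
  · exact hb' (rI_le D ha ((mem_rI D).2 h))

theorem lI_tot (I J : Submodule (SR D) (SR D)) : I ≤ J ∨ J ≤ I := by
  by_contra h
  rw [not_or] at h
  obtain ⟨h1, h2⟩ := h
  rw [SetLike.not_le_iff_exists] at h1 h2
  obtain ⟨a, ha, ha'⟩ := h1
  obtain ⟨b, hb, hb'⟩ := h2
  rcases SR_hl D a b with ⟨t, ht⟩ | ⟨t, ht⟩
  · apply ha'
    rw [ht]
    exact J.smul_mem t hb
  · apply hb'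
    rw [ht]
    exact I.smul_mem t ha

theorem KK_succ_le {k : ℕ} {a : SR D} (h : (theLS D).lev a < (k + 1 : ℕ)) : KK D (k + 1) ≤ rI D a := by
  intro f hf
  rw [mem_KK_iff] at hf
  exact (mem_rI D).2 ((theLS D).hq a f (lt_of_lt_of_le h hf))

theorem KK_anti {k l : ℕ} (h : k ≤ l) : KK D l ≤ KK D k := by
  intro f hf m hm
  exact hf m (by omega)

theorem KK_zero : KK D 0 = ⊤ := by
  rw [eq_top_iff]
  intro f _ m hm
  omega

theorem dev_step (h : SR D) : DevLT 1 (rI D (h * (theLS D).t)) (rI D h) := by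
  intro c hc hc'
  have key : ∀ i, c i ≠ rI D h → c i = rI D (h * (theLS D).t) := by
    intro i hi
    refine le_antisymm ?_ (hc' i).1
    intro f hf
    obtain ⟨r, hr⟩ := (mem_rI D).1 ((hc' i).2 hf)
    rcases (theLS D).adjq f h r hr with ⟨s, hs⟩ | ⟨s, hs⟩
    · exfalso
      apply hi
      refine le_antisymm (hc' i).2 (rI_le D ?_)
      exact rI_le D hf ((mem_rI D).2 ⟨s, hs⟩)
    · exact (mem_rI D).2 ⟨s, hs⟩
  by_cases h1 : ∀ i, c i = rI D h
  · exact ⟨0, fun i _ => ((h1 (i + 1)).trans (h1 i).symm : c (i + 1) = c i)⟩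
  · push Not at h1
    obtain ⟨i₀, hi₀⟩ := h1
    have h2 : ∀ i ≥ i₀, c i = rI D (h * (theLS D).t) := by
      intro i hi
      refine le_antisymm ?_ (hc' i).1
      rw [← key i₀ hi₀]
      exact hc hi
    exact ⟨i₀, fun i hi => ((h2 (i + 1) (by omega)).trans (h2 i hi).symm : c (i + 1) = c i)⟩

theorem dev_steps (h : SR D) (i : ℕ) : DevLT 1 (rI D (h * (theLS D).t ^ i)) (rI D h) := by
  induction i with
  | zero => rw [pow_zero, mul_one]; exact dev_refl 1 _
  | succ i ih =>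
    refine dev_trans (rI_tot D) ?_ ih
    rw [pow_succ, ← mul_assoc]
    exact dev_step D _

theorem dev_level (M : ℕ) : DevLT 2 (KK D (M + 1)) (KK D M) := by
  intro c hc hc'
  by_cases h1 : ∃ i₀, c i₀ = KK D (M + 1)
  · obtain ⟨i₀, hi₀⟩ := h1
    refine ⟨i₀, fun i hi => ?_⟩
    have : ∀ j ≥ i₀, c j = KK D (M + 1) := fun j hj =>
      le_antisymm ((hc hj).trans (le_of_eq hi₀)) (hc' j).1
    rw [this i hi, this (i + 1) (by omega)]
    exact dev_refl 1 _
  by_cases h2 : ∀ i, c i = KK D M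
  · refine ⟨0, fun i _ => ?_⟩
    rw [h2, h2]
    exact dev_refl 1 _
  push Not at h1 h2
  obtain ⟨i₀, hi₀⟩ := h2
  obtain ⟨y, hy, hy'⟩ : ∃ y ∈ KK D M, y ∉ c i₀ := by
    rw [← SetLike.not_le_iff_exists]
    exact fun h => hi₀ (le_antisymm (hc' i₀).2 h)
  have levM : ∀ z : SR D, z ∈ KK D M → z ∉ KK D (M + 1) → (theLS D).lev z = M := by
    intro z hz hz'
    rw [mem_KK_iff] at hz hz'
    refine le_antisymm ?_ hz
    rw [not_le] at hz'
    push_cast at hz'
    exact (ENat.lt_add_one_iff (ENat.natCast_ne_top M)).1 hz'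
  have hyM : (theLS D).lev y = M := levM y hy (fun h => hy' ((hc' i₀).1 h))
  refine ⟨i₀, fun i hi => ?_⟩
  have hciy : c i ≤ rI D y := by
    refine (hc hi).trans ?_
    intro f hf
    rcases SR_hr D f y with h | h
    · exact (mem_rI D).2 h
    · exfalso
      exact hy' (rI_le D hf ((mem_rI D).2 h))
  obtain ⟨z, hz, hz'⟩ : ∃ z ∈ c (i + 1), z ∉ KK D (M + 1) := by
    rw [← SetLike.not_le_iff_exists]
    exact fun h => h1 (i + 1) (le_antisymm h (hc' _).1)
  have hzM : (theLS D).lev z = M := levM z ((hc' _).2 hz) hz'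
  obtain ⟨r, hr⟩ := (mem_rI D).1 (hciy (hc (Nat.le_succ i) hz))
  obtain ⟨j, s, hs⟩ := (theLS D).sq y z r (hyM.trans hzM.symm) (by rw [hyM]; exact ENat.natCast_ne_top M) hr
  refine dev_sub (dev_steps D y j) ?_ (hc (Nat.le_succ i)) hciy
  rw [hs]
  exact rI_le D (rI_le D hz ((mem_rI D).2 ⟨s, rfl⟩))

theorem dev_levels (M : ℕ) : DevLT 2 (KK D M) ⊤ := by
  induction M with
  | zero => rw [KK_zero]; exact dev_refl 2 _
  | succ M ih => exact dev_trans (rI_tot D) (dev_level D M) ih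

theorem krull_upper : DevLT 3 (⊥ : Submodule (SR D)ᵐᵒᵖ (SR D)) ⊤ := by
  intro c hc hc'
  by_cases h1 : ∃ i₀, c i₀ = ⊥
  · obtain ⟨i₀, hi₀⟩ := h1
    refine ⟨i₀, fun i hi => ?_⟩
    have : ∀ j ≥ i₀, c j = ⊥ := fun j hj => le_antisymm ((hc hj).trans (le_of_eq hi₀)) bot_le
    rw [this i hi, this (i + 1) (by omega)]
    exact dev_refl 2 _
  push Not at h1
  refine ⟨0, fun i _ => ?_⟩
  obtain ⟨z, hz, hz0⟩ := Submodule.exists_mem_ne_zero_of_ne_bot (h1 (i + 1))
  have hlev : (theLS D).lev z ≠ ⊤ := fun h => hz0 ((theLS D).htop _ h)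
  obtain ⟨N, hN⟩ := ENat.ne_top_iff_exists.1 hlev
  refine dev_sub (dev_levels D (N + 1)) ?_ (hc (Nat.le_succ i)) le_top
  refine (KK_succ_le D ?_).trans (rI_le D hz)
  rw [← hN]
  exact_mod_cast Nat.lt_succ_self N

theorem krull_lower : ¬ DevLT 2 (⊥ : Submodule (SR D)ᵐᵒᵖ (SR D)) ⊤ := by
  intro h
  obtain ⟨N, hN⟩ := h (fun i => KK D i) (fun i j hij => KK_anti D hij)
    (fun i => ⟨bot_le, le_top⟩)
  have h1 := hN N le_rfl
  have hlev : ∀ j, (theLS D).lev (Xx D N * Tt D ^ j) = N := fun j =>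
    ((theLS D).levpowt (Xx D N) j).trans ((theLS D).hX N)
  obtain ⟨M, hM⟩ := h1 (fun j => rI D (Xx D N * Tt D ^ j)) (by
      apply antitone_nat_of_succ_le
      intro j
      apply rI_le
      rw [mem_rI]
      exact ⟨Tt D, by rw [pow_succ, mul_assoc]⟩) (by
      intro j
      refine ⟨KK_succ_le D ?_, rI_le D ?_⟩
      · rw [hlev]
        exact_mod_cast Nat.lt_succ_self N
      · rw [mem_KK_iff, hlev])
  have h2 : rI D (Xx D N * Tt D ^ (M + 1)) = rI D (Xx D N * Tt D ^ M) := hM M le_rfl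
  have h3 : Xx D N * Tt D ^ M ∈ rI D (Xx D N * Tt D ^ (M + 1)) := by
    rw [h2, mem_rI]
    exact ⟨1, by rw [mul_one]⟩
  obtain ⟨s, hs⟩ := (mem_rI D).1 h3
  have e1 : ∀ j, ((Xx D N * Tt D ^ j : SR D) : TPS Q D.σ).c N = (D.σ ^ N) (D.t ^ j) := by
    intro j
    rw [mul_Tpow_c]
    simp [Xx, TPS.X]
  have e2 := TPS.mul_lead (b := (s : TPS Q D.σ)) (a := ((Xx D N * Tt D ^ (M + 1) : SR D) : TPS Q D.σ))
    (m := 0) (n := N) (TPS.lev_coe.1 (hlev (M + 1))).2 (by simp)
  have e3 : ((Xx D N * Tt D ^ M : SR D) : TPS Q D.σ).c N =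
      ((Xx D N * Tt D ^ (M + 1) * s : SR D) : TPS Q D.σ).c N := by
    rw [← hs]
  rw [e1, SR_coe_mul] at e3
  rw [add_zero] at e2
  rw [e2, e1, ← map_mul] at e3
  have e4 := (D.σ ^ N).injective e3
  apply D.htinv
  have h6 : D.t ^ M ≠ 0 := pow_ne_zero _ D.ht0
  have h7 : D.t ^ M * ((s : TPS Q D.σ).c 0 * D.t) = D.t ^ M * 1 := by
    rw [pow_succ] at e4
    linear_combination (-1 : Q) * e4
  have h8 := eq_inv_of_mul_eq_one_left (mul_left_cancel₀ h6 h7)
  rw [← h8]
  exact s.2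

end krull

theorem SR_serial {Q : Type} [Field Q] (D : FD Q) : IsSerialRing (SR D) := by
  refine ⟨1, fun _ => 1, ?_, ?_, by simp, ?_, ?_⟩
  · intro _
    refine ⟨mul_one _, ?_, ?_⟩
    · intro h
      have h : (1 : SR D) = 0 := h
      have h1 := (theLS D).hone
      rw [h] at h1
      have h0 : (theLS D).lev (0 : SR D) = ⊤ := TPS.lev_top.2 rfl
      rw [h0] at h1
      exact absurd h1 (by simp)
    · intro f g hf hg hfg hgf hsum
      rcases SR_hr D f g with ⟨t, ht⟩ | ⟨t, ht⟩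
      · left
        calc f = (f + g) * f := by rw [hsum, one_mul]
          _ = f * f + g * f := add_mul _ _ _
          _ = f * f := by rw [hgf, add_zero]
          _ = f * (g * t) := by rw [← ht]
          _ = 0 := by rw [← mul_assoc, hfg, zero_mul]
      · right
        calc g = (f + g) * g := by rw [hsum, one_mul]
          _ = f * g + g * g := add_mul _ _ _
          _ = g * g := by rw [hfg, zero_add]
          _ = g * (f * t) := by rw [← ht]
          _ = 0 := by rw [← mul_assoc, hgf, zero_mul]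
  · intro i j hij
    exact absurd (Subsingleton.elim i j) hij
  · intro _ A B _ _
    exact rI_tot D A B
  · intro _ A B _ _
    exact lI_tot D A B

theorem KGDimEq.unique {R : Type u} [Ring R] {n m : ℕ} (h1 : KGDimEq R n) (h2 : KGDimEq R m) :
    n = m := by
  obtain ⟨a, b, ha, hb, h3, h4⟩ := h1
  obtain ⟨a', b', ha', hb', h5, h6⟩ := h2
  obtain rfl : a = a' := le_antisymm (ha _) (ha' _)
  obtain rfl : b = b' := le_antisymm (hb' _) (hb _)
  have mono : ∀ {p q : ℕ}, p ≤ q → MdimLT p a b → MdimLT q a b := by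
    intro p q hpq h
    induction q, hpq using Nat.le_induction with
    | base => exact h
    | succ q _ ih => exact mdim_succ ih
  rcases lt_trichotomy n m with h | h | h
  · exact absurd (mono h h3) h6
  · exact h
  · exact absurd (mono h h5) h4

theorem dev_succ {L : Type*} [PartialOrder L] : ∀ {n : ℕ} {a b : L},
    DevLT n a b → DevLT (n + 1) a b := by
  intro n
  induction n with
  | zero =>
    intro a b h
    have h : a = b := h
    subst h
    exact dev_refl 1 a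
  | succ n ih =>
    intro a b h c hc hc'
    obtain ⟨N, hN⟩ := h c hc hc'
    exact ⟨N, fun i hi => ih (hN i hi)⟩

theorem KrullDimEq.unique {R : Type u} [Ring R] {n m : ℕ} (h1 : KrullDimEq R n)
    (h2 : KrullDimEq R m) : n = m := by
  obtain ⟨h3, h4⟩ := h1
  obtain ⟨h5, h6⟩ := h2
  have mono : ∀ {p q : ℕ}, p ≤ q → DevLT p (⊥ : Submodule Rᵐᵒᵖ R) ⊤ →
      DevLT q (⊥ : Submodule Rᵐᵒᵖ R) ⊤ := by
    intro p q hpq h
    induction q, hpq using Nat.le_induction with
    | base => exact h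
    | succ q _ ih => exact dev_succ ih
  rcases lt_trichotomy n m with h | h | h
  · exact absurd (mono h h3) h6
  · exact h
  · exact absurd (mono h h5) h4

/-- There is a serial ring of Krull dimension `2` whose Krull–Gabriel dimension is `3`. -/
theorem result : ∃ (R : Type) (_ : Ring R),
    IsSerialRing R ∧ KrullDimEq R 2 ∧ KGDimEq R 3 := by
  obtain ⟨D⟩ := exists_FD
  refine ⟨SR D, inferInstance, SR_serial D, ⟨krull_upper D, krull_lower D⟩,
    ⟨psi 1, ⊤, psi_one_le, fun _ => le_top, KG_upper D, KG_lower D⟩⟩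

end Pool.Agent.Results.MP_9ad289_al.OddKG
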